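import Pool.Agent.Rohlin.Octic.O15.Ovals

/-!
# The octic O15: subdivision trees, part 0
-/

set_option autoImplicit false

namespace Pool.Agent.Rohlin.Octic.O15

open Pool.Agent.Rohlin.Cone

/-- tree -/
def t0 : Tr :=
  (.rot (.cut 1 1 (.rot (.cut 5 1 (.rot (.cut 1 52 .P (.rot (.rot (.cut 1024 1 (.cut 32768 1 (.rot (.rot (.cut 7 1 (.rot (.rot (.cut 1 131072 .P .P))) .P))) (.rot (.cut 1 8192 (.rot (.cut 8 1 (.rot (.rot (.cut 3 1 (.rot (.rot (.cut 1 39 (.cut 3 1 (.rot (.rot (.cut 4 1 .N (.rot (.cut 6 1 (.rot (.rot (.cut 1 2 (.R 5 0 true) (.rot (.cut 13 1 .P (.R 5 0 true)))))) .N))))) .N) (.rot (.cut 7 1 (.rot (.rot (.cut 1 128 (.cut 2 1 .N (.rot (.cut 1 16 (.rot (.rot (.cut 1 2 (.cut 2 1 (.R 5 0 true) .P) .P))) (.R 5 0 true)))) (.rot (.cut 15 1 .P (.cut 1 2 .P (.rot (.cut 16 1 (.R 5 0 true) .P))))))))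 .N))))) (.cut 1 3 (.cut 2 1 (.rot (.cut 3 2 (.rot (.rot (.cut 4 1 (.rot (.rot (.cut 1 19 .P (.rot (.cut 8 1 (.R 5 0 true) .P))))) .P))) (.rot (.cut 1 4 (.cut 2 1 .P (.rot (.cut 2 1 (.R 5 0 true) .P))) (.rot (.cut 19 1 (.R 5 0 true) (.rot (.cut 1 2 .P (.R 5 0 true))))))))) .P) .P)))) (.rot (.cut 1 4 (.rot (.rot (.cut 1 3 (.rot (.rot (.cut 2 1 .P (.rot (.cut 2 1 (.rot (.rot (.cut 1 2 (.R 5 0 true) (.cut 1 4 (.R 5 0 true) .P)))) .P))))) .P))) (.rot (.cut 39 1 (.rot (.cut 1 4 (.rot (.rot (.cut 128 1 .P (.rot (.cut 2 1 (.rot (.rot (.cut 1 2 (.rot (.rot (.cut 2 3 (.R 5 0 true) (.rot (.cut 2 1 .P (.cut 1 2 .P (.R 5 0 true))))))) .N))) (.rot (.rot (.cut 3 2 .P (.rot (.cut 1 2 (.R 5 0 true) .P)))))))))) .P)) (.rot (.cut 1 2 (.rot (.rot (.cut 1 3 (.R 5 0 true) (.rot (.cut 2 1 (.rot (.rot (.cut 1 6 .N (.rot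 (.cut 4 1 (.rot (.rot (.cut 1 13 (.R 5 0 true) .P))) (.R 5 0 true)))))) (.R 5 0 true)))))) (.rot (.cut 4 1 .P (.cut 1 2 (.rot (.rot (.cut 2 1 (.R 5 0 true) (.rot (.cut 2 1 .P (.R 5 0 true)))))) (.R 5 0 true)))))))))))) (.rot (.cut 131072 1 .P (.rot (.cut 1 8 .P .P))))))) (.cut 1 22 (.rot (.cut 1 16384 (.rot (.cut 1 5 .P .P)) (.rot (.cut 8192 1 .P (.rot (.cut 5 1 (.rot (.rot (.cut 1 3 (.cut 3 1 .P (.cut 1 2 .P (.rot (.cut 3 1 (.rot (.rot (.cut 1 4 .P (.rot (.cut 6 1 (.rot (.rot (.cut 1 8 .P (.R 5 0 true)))) .P))))) .P)))) (.rot (.cut 13 1 (.rot (.rot (.cut 1 7 (.rot (.rot (.cut 1 5 (.cut 2 1 (.rot (.rot (.cut 2 1 (.R 5 0 true) (.rot (.cut 4 1 .P (.rot (.rot (.cut 4 1 (.R 5 0 true) (.rot (.cut 1 2 .P (.R 5 0 true))))))))))) .N) .N))) (.cut 1 15 (.cut 2 1 (.rot (.rot (.cut 1 2 .P (.R 5 0 true))))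 .P) .P)))) (.rot (.cut 1 3 .P (.rot (.cut 5 1 (.rot (.cut 1 2 (.R 5 0 true) (.rot (.cut 1 6 .P (.R 5 0 true))))) (.rot (.rot (.cut 2 1 .P (.rot (.rot (.cut 5 1 (.rot (.rot (.cut 1 2 (.R 5 0 true) (.cut 1 4 (.cut 2 1 (.R 5 0 true) .P) .P)))) (.R 5 0 true)))))))))))))))) .P)))))) (.rot (.rot (.cut 16384 1 (.rot (.rot (.cut 1 256 (.cut 2 1 .P (.rot (.cut 128 1 (.rot (.rot (.cut 1 2 .P (.rot (.cut 256 1 (.rot (.rot (.cut 1 4 .P (.rot (.cut 512 1 (.rot (.rot (.cut 1 8 .P (.rot (.cut 1024 1 (.rot (.rot (.cut 1 16 .P (.R 6 0 true)))) .P))))) .P))))) .P))))) .P))) (.cut 1 512 (.rot (.rot (.cut 1 128 .P (.rot (.cut 3 2 (.rot (.cut 35 1 (.rot (.rot (.cut 5 1 (.R 6 0 true) .P))) (.rot (.cut 1 256 .P (.cut 1 512 .P (.cut 1 1024 .P (.R 6 0 true))))))) .P))))) .P)))) .P))))))))) (.cut 1 33 (.rot (.cut 1 128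 .P (.rot (.cut 52 1 (.rot (.rot (.cut 1 1024 .P (.rot (.rot (.cut 5 1 (.rot (.rot (.cut 256 1 (.rot (.rot (.cut 1 4096 (.rot (.rot (.cut 10 1 (.rot (.cut 3 4 (.rot (.rot (.cut 20 1 (.rot (.rot (.cut 1 128 (.rot (.rot (.cut 3 1 (.rot (.rot (.cut 1 6 (.rot (.rot (.cut 1 1 .P (.rot (.cut 2 1 (.R 6 0 true) .P))))) .P))) (.cut 1 2 (.rot (.rot (.cut 1 1 (.R 6 0 true) .P))) (.R 6 0 true))))) (.rot (.cut 42 1 (.cut 128 1 .N (.rot (.cut 3 1 (.rot (.rot (.cut 1 3 (.R 6 0 true) .P))) (.R 6 0 true)))) (.rot (.cut 6 1 .P (.rot (.cut 1 3 (.rot (.rot (.cut 1 2 .P (.R 6 0 true)))) .P))))))))) (.rot (.cut 6 1 .P (.rot (.cut 1 3 (.rot (.rot (.cut 1 2 .P (.rot (.cut 2 1 (.rot (.rot (.cut 1 4 .P (.R 6 0 true)))) .P))))) .P))))))) .N)) (.rot (.cut 2 1 .P (.rot (.cut 4 3 (.rot (.rot (.cut 1 2 (.cut 2 1 (.rot (.rot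 (.cut 1 4 (.rot (.rot (.cut 1 1 .P (.rot (.cut 2 1 (.R 6 0 true) .P))))) .P))) (.rot (.rot (.cut 1 1 (.R 6 0 true) (.rot (.cut 1 2 (.cut 2 1 .P (.R 6 0 true)) (.R 6 0 true))))))) .N))) (.cut 1 6 (.rot (.rot (.cut 4 1 .P (.rot (.cut 2 1 (.rot (.rot (.cut 1 2 .P (.rot (.cut 4 1 (.R 6 0 true) .P))))) .P))))) .P)))))))) (.rot (.cut 512 1 (.rot (.rot (.cut 1 8192 (.rot (.rot (.cut 16 1 .P (.rot (.cut 3 2 (.cut 5 1 (.rot (.rot (.cut 1 2 (.cut 2 1 .P (.cut 1 2 .P (.R 6 0 true))) (.R 6 0 true)))) .P) .P))))) .P))) (.cut 2 3 (.rot (.rot (.cut 1 16 (.rot (.rot (.cut 4 1 (.rot (.cut 1 1 (.rot (.rot (.cut 9 1 .P (.R 6 0 true)))) .P)) (.rot (.cut 2 1 .N (.rot (.cut 1 1 (.rot (.rot (.cut 1 2 (.cut 2 1 (.R 6 0 true) .P) .P))) (.R 6 0 true)))))))) .P))) (.rot (.rot (.cut 1 4 .N (.rot (.cut 1 5 (.rot (.rot (.cut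 1 9 (.R 6 0 true) .P))) (.R 6 0 true)))))))))))) (.cut 1 2 (.rot (.rot (.cut 1 10 .P (.rot (.cut 2 1 (.rot (.rot (.cut 1 20 .P (.rot (.cut 4 1 (.rot (.rot (.cut 1 42 .P (.rot (.cut 8 1 (.cut 16 1 (.rot (.rot (.cut 1 128 (.cut 3 1 .P (.R 6 0 true)) (.R 6 0 true)))) .P) .P))))) .P))))) .P))))) .P)))) (.rot (.rot (.cut 4096 1 (.rot (.rot (.cut 1 2048 (.rot (.rot (.cut 1 3 (.rot (.cut 1 6 .N (.rot (.cut 4 1 (.rot (.rot (.cut 1 12 (.R 6 0 true) (.rot (.cut 8 1 .P (.cut 1 2 .P (.R 6 0 true))))))) .N)))) (.rot (.cut 3 2 (.cut 7 1 (.rot (.rot (.cut 1 5 (.rot (.rot (.cut 1 2 .P (.rot (.cut 2 1 (.rot (.rot (.cut 1 4 .P (.rot (.cut 4 1 (.R 6 0 true) .P))))) .P))))) .P))) (.cut 1 2 (.rot (.cut 1 3 (.rot (.cut 1 3 (.rot (.cut 1 3 (.rot (.rot (.cut 2 1 (.R 6 0 true) .P))) (.R 6 0 true))) (.rot (.cut 2 1 .P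 (.rot (.cut 3 1 (.rot (.rot (.cut 1 2 .P (.R 6 0 true)))) .P)))))) (.rot (.cut 2 1 (.cut 4 1 (.R 6 0 true) (.rot (.cut 2 1 .P (.R 6 0 true)))) (.rot (.cut 3 1 .P (.rot (.cut 1 2 (.rot (.rot (.cut 1 2 .P (.R 6 0 true)))) .P)))))))) .N)) (.rot (.cut 6 1 (.rot (.rot (.cut 1 5 (.R 6 0 true) (.rot (.cut 12 1 .P (.R 6 0 true)))))) .N))))))) (.rot (.cut 8192 1 .P (.cut 2 3 .P (.cut 1 5 .P (.rot (.cut 1 4 (.R 6 0 true) (.rot (.cut 47 1 (.rot (.rot (.cut 1 8 (.cut 2 1 (.R 6 0 true) .P) .P))) (.R 6 0 true)))))))))))) (.cut 1 2 (.rot (.rot (.cut 3 1 (.rot (.cut 4 3 (.rot (.rot (.cut 5 1 .P (.rot (.cut 8 1 (.rot (.rot (.cut 1 2 .P (.cut 1 4 .P (.R 6 0 true))))) .P))))) .P)) (.rot (.cut 2 1 .N (.rot (.cut 3 4 (.rot (.rot (.cut 1 2 (.rot (.rot (.cut 1 4 (.cut 2 1 .P (.rot (.cut 1 4 (.R 6 0 true) .P))) (.rot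 (.cut 2 1 .N (.rot (.cut 4 1 (.rot (.rot (.cut 1 2 (.R 6 0 true) .P))) (.R 6 0 true)))))))) .P))) (.rot (.rot (.cut 4 1 .N (.rot (.cut 1 8 (.rot (.rot (.cut 1 2 (.R 6 0 true) .P))) (.R 6 0 true))))))))))))) .P)))))))))) .P)))) (.rot (.rot (.cut 128 1 (.rot (.cut 1 512 (.rot (.cut 1 2048 .P (.rot (.cut 1024 1 (.rot (.rot (.cut 1 8192 .P (.rot (.cut 2048 1 .P (.rot (.cut 4 1 (.rot (.cut 1 8 .P (.rot (.cut 2 3 (.cut 5 1 .P (.rot (.cut 4 1 (.R 6 0 true) .P))) (.cut 1 7 (.rot (.rot (.cut 1 4 .P (.rot (.cut 2 1 (.R 6 0 true) (.rot (.cut 3 1 (.rot (.rot (.cut 1 2 (.cut 2 1 (.R 6 0 true) .P) .P))) (.R 6 0 true)))))))) .P))))) .P))))))) .P)))) (.rot (.rot (.cut 2048 1 (.rot (.cut 1 4096 (.rot (.cut 1 16384 (.cut 3 1 .P (.rot (.rot (.cut 16 1 .P (.rot (.cut 1 3 (.rot (.rot (.cut 1 2 .P (.rot (.cut 3 1 .P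 (.rot (.cut 2 1 (.cut 4 1 (.rot (.cut 1 3 (.rot (.rot (.cut 8 1 (.R 8 0 true) .P))) (.R 8 0 true))) .P) .P))))))) .P)))))) (.rot (.cut 8192 1 .P .P)))) (.rot (.rot (.cut 16384 1 (.rot (.cut 1 32768 (.rot (.cut 1 131072 (.rot (.rot (.cut 3 1 (.rot (.cut 2 3 (.rot (.rot (.cut 7 1 (.cut 15 1 .P (.rot (.cut 3 2 (.rot (.rot (.cut 1 2 .P (.R 8 0 true)))) .P))) (.rot (.cut 4 1 .N (.rot (.cut 2 3 (.rot (.rot (.cut 1 2 (.R 8 0 true) .P))) (.R 8 0 true)))))))) .P)) (.rot (.cut 3 1 (.rot (.rot (.cut 1 2 (.rot (.cut 4 3 (.rot (.rot (.cut 2 1 (.rot (.rot (.cut 1 14 (.cut 2 1 .P (.rot (.cut 1 8 (.R 8 0 true) .P))) (.rot (.cut 4 1 .N (.cut 1 2 (.R 8 0 true) (.rot (.cut 8 1 .P (.R 8 0 true))))))))) .P))) (.rot (.rot (.cut 14 1 .N (.rot (.cut 1 6 (.rot (.rot (.cut 1 2 (.R 8 0 true) .P))) (.R 8 0 true)))))))) (.rot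 (.cut 6 1 .P (.rot (.cut 3 4 (.rot (.rot (.cut 1 2 .P (.rot (.cut 6 1 (.rot (.rot (.cut 1 4 .P (.R 8 0 true)))) .P))))) .P))))))) (.rot (.cut 3 2 (.rot (.rot (.cut 1 3 (.cut 2 1 (.rot (.rot (.cut 1 2 (.rot (.rot (.cut 1 2 (.R 8 0 true) (.rot (.cut 2 1 .P (.R 8 0 true)))))) (.R 8 0 true)))) .P) .P))) (.cut 1 4 (.rot (.rot (.cut 2 1 .N (.rot (.cut 2 1 (.rot (.rot (.cut 1 2 (.R 8 0 true) .P))) (.R 8 0 true)))))) .N)))))))) .P)) (.rot (.cut 1 1 (.cut 7 1 (.rot (.rot (.cut 1 131072 .P .P))) .P) (.rot (.rot (.cut 1 262144 (.rot (.rot (.cut 131072 1 (.rot (.rot (.cut 1 2097152 .P .P))) (.rot (.cut 3 1 (.rot (.rot (.cut 1 3 (.cut 3 1 .P (.rot (.rot (.cut 4 3 (.rot (.rot (.cut 2 1 (.cut 4 1 (.rot (.rot (.cut 1 10 .P (.rot (.cut 8 1 (.R 8 0 true) .P))))) .P) .P))) (.rot (.cut 1 2 .P (.rot (.rot (.cut 1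 3 (.rot (.rot (.cut 10 1 (.R 8 0 true) .P))) (.R 8 0 true)))))))))) (.cut 1 6 (.rot (.rot (.cut 1 2 .P (.rot (.cut 2 1 (.rot (.rot (.cut 1 4 .P (.rot (.cut 4 1 (.rot (.rot (.cut 1 8 .P (.R 8 0 true)))) .P))))) .P))))) .P)))) .P))))) (.rot (.cut 1 7 .P (.rot (.cut 2097152 1 .P .P))))))))))) (.rot (.rot (.cut 32768 1 (.rot (.rot (.cut 1 16384 (.rot (.cut 3 1 (.rot (.rot (.cut 2 1 .P (.rot (.cut 7 1 (.rot (.rot (.cut 1 2 (.rot (.rot (.cut 1 5 .N (.rot (.cut 2 1 (.rot (.rot (.cut 1 11 (.R 9 0 true) (.rot (.cut 4 1 .P (.R 9 0 true)))))) .N))))) .N))) (.cut 1 2 (.rot (.rot (.cut 5 1 (.rot (.rot (.cut 1 8 (.R 9 0 true) (.rot (.cut 11 1 .P (.R 9 0 true)))))) (.R 9 0 true)))) .P)))))) .P)) (.rot (.cut 131072 1 (.rot (.rot (.cut 1 32768 (.rot (.rot (.cut 1 3 .P (.rot (.cut 3 2 (.cut 6 1 (.rot (.cut 1 2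 (.rot (.rot (.cut 12 1 (.R 9 0 true) (.cut 1 2 (.R 9 0 true) .P)))) (.R 9 0 true))) .P) .P))))) .P))) (.cut 1 2 (.rot (.rot (.cut 3 1 (.rot (.rot (.cut 1 11 (.rot (.rot (.cut 3 2 (.R 9 0 true) (.rot (.cut 3 1 .P (.cut 1 2 .P (.R 9 0 true))))))) (.R 9 0 true)))) .P))) (.rot (.cut 1 3 .P (.rot (.cut 11 1 (.rot (.rot (.cut 1 7 (.rot (.rot (.cut 1 4 (.R 9 0 true) (.rot (.cut 2 1 .P (.R 9 0 true)))))) .N))) (.cut 1 3 (.rot (.rot (.cut 4 1 .P (.rot (.cut 2 1 (.R 9 0 true) .P))))) .P))))))))))) (.rot (.cut 1 3 (.rot (.rot (.cut 1 3 (.cut 2 1 .P (.cut 1 2 .P (.rot (.cut 1 2 (.rot (.cut 2 1 (.R 8 0 true) (.rot (.cut 1 4 (.cut 2 1 .P (.R 8 0 true)) (.R 8 0 true))))) .P)))) (.rot (.cut 3 1 (.rot (.rot (.cut 1 7 (.R 8 0 true) (.cut 1 15 (.cut 2 1 (.R 8 0 true) .P) .P)))) (.cut 1 3 (.R 8 0 true) (.rot (.cut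 2 1 (.rot (.rot (.cut 1 5 (.rot (.cut 1 2 .P (.rot (.rot (.cut 4 1 (.R 8 0 true) .P))))) .P))) (.R 8 0 true))))))))) .P)))))))))) (.rot (.rot (.cut 4096 1 (.rot (.rot (.cut 1 4096 (.cut 3 1 .P (.rot (.cut 4 1 (.cut 11 1 .P (.rot (.cut 1 3 (.rot (.rot (.cut 1 2 .P (.rot (.cut 2 1 (.rot (.cut 1 1 (.rot (.cut 1 8 .P (.rot (.cut 4 1 (.cut 8 1 (.R 9 0 true) .P) .P)))) (.rot (.rot (.cut 8 1 (.rot (.rot (.cut 1 4 (.cut 2 1 .P (.R 9 0 true)) (.R 9 0 true)))) .P))))) .P))))) .P))) (.cut 1 3 (.cut 2 1 (.rot (.rot (.cut 3 1 .P (.rot (.cut 4 1 (.rot (.rot (.cut 1 2 .P (.rot (.cut 8 1 (.rot (.rot (.cut 1 4 .P (.cut 1 8 .P (.R 9 0 true))))) .P))))) .P))))) .P) .P)))) (.rot (.cut 16384 1 (.cut 32768 1 .P (.rot (.cut 1 6 (.rot (.rot (.cut 2 3 .P (.cut 1 6 .P (.rot (.rot (.cut 3 1 (.rot (.rot (.cut 3 1 (.R 9 0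 true) (.cut 1 3 (.R 9 0 true) .P)))) (.cut 1 2 (.R 9 0 true) (.rot (.cut 1 12 (.cut 2 1 .P (.R 9 0 true)) (.R 9 0 true))))))))))) .P))) (.rot (.cut 1 4 (.rot (.rot (.cut 1 2 (.cut 2 1 .N (.rot (.cut 3 4 (.rot (.rot (.cut 1 2 (.R 9 0 true) (.cut 1 4 (.R 9 0 true) .P)))) (.R 9 0 true)))) (.rot (.cut 3 1 .P (.cut 1 2 .P (.rot (.cut 4 3 (.rot (.rot (.cut 1 4 .P (.cut 1 8 .P (.R 9 0 true))))) .P)))))))) (.rot (.cut 6 1 (.rot (.rot (.cut 1 11 (.cut 2 1 (.rot (.rot (.cut 3 4 (.cut 6 1 .P (.cut 1 2 .P (.rot (.cut 1 2 (.R 9 0 true) .P)))) (.rot (.cut 4 1 .N (.cut 1 2 (.R 9 0 true) (.rot (.cut 2 1 .P (.R 9 0 true))))))))) .P) .P))) (.rot (.rot (.cut 4 3 .N (.rot (.cut 1 3 (.cut 3 1 (.rot (.rot (.cut 1 6 (.cut 2 1 (.R 9 0 true) .P) .P))) (.R 9 0 true)) .N)))))))))))))) .P)))))))) (.rot (.rot (.cut 512 1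 (.cut 4096 1 .P .P) .P))))))))) (.rot (.rot (.cut 1 5 (.cut 33 1 (.rot (.cut 1 128 (.rot (.cut 1 512 (.rot (.rot (.cut 5 1 .P (.rot (.rot (.cut 3 2 .P (.rot (.rot (.cut 18 1 (.rot (.rot (.cut 1 3 (.rot (.rot (.cut 1 10 (.rot (.cut 1 12 (.rot (.rot (.cut 2 1 .P (.rot (.rot (.cut 1 1 (.rot (.rot (.cut 2 1 (.rot (.rot (.cut 1 4 (.rot (.rot (.cut 1 1 (.R 7 0 true) (.rot (.cut 2 1 .P (.R 7 0 true)))))) .N))) (.cut 1 2 (.rot (.rot (.cut 1 1 .P (.R 7 0 true)))) .P)))) (.rot (.cut 1 2 .P (.rot (.cut 4 1 (.R 7 0 true) (.cut 1 2 (.R 7 0 true) .P))))))))))) .P)) (.rot (.cut 2 1 (.R 7 0 true) (.rot (.cut 12 1 (.rot (.rot (.cut 1 2 (.cut 2 1 (.rot (.rot (.cut 1 11 (.cut 2 1 .P (.R 7 0 true)) (.R 7 0 true)))) .P) .P))) (.cut 1 2 (.rot (.rot (.cut 11 1 .N (.rot (.cut 2 1 (.rot (.rot (.cut 1 2 (.R 7 0 true) .P)))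 (.R 7 0 true)))))) .N)))))))) .P))) (.rot (.cut 1 5 .P (.rot (.cut 10 1 (.rot (.cut 1 2 (.rot (.cut 1 41 (.rot (.rot (.cut 2 1 .N (.rot (.cut 2 1 (.rot (.rot (.cut 1 2 .N (.rot (.cut 4 1 (.rot (.rot (.cut 1 4 (.R 7 0 true) .P))) (.R 7 0 true)))))) .N))))) (.R 7 0 true))) (.rot (.cut 1 10 .P (.cut 1 20 .P (.rot (.cut 41 1 (.rot (.cut 1 2 (.R 7 0 true) .P)) (.rot (.cut 1 1 (.rot (.rot (.cut 1 2 (.R 7 0 true) (.cut 1 4 (.R 7 0 true) .P)))) (.rot (.cut 2 1 .P (.R 7 0 true)))))))))))) (.rot (.rot (.cut 2 1 .P (.rot (.rot (.cut 4 1 (.rot (.rot (.cut 1 2 (.cut 2 1 (.rot (.rot (.cut 1 4 .P (.R 7 0 true)))) .P) .P))) (.cut 1 2 (.rot (.rot (.cut 4 1 (.R 7 0 true) .P))) (.rot (.cut 1 2 (.rot (.rot (.cut 1 4 (.R 7 0 true) (.rot (.cut 2 1 (.cut 4 1 .P (.R 7 0 true)) (.R 7 0 true)))))) (.R 7 0 true)))))))))))))))))))))))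 .P)) (.rot (.rot (.cut 512 1 (.rot (.cut 1 2048 .P (.rot (.cut 1 1 (.cut 5 1 (.rot (.cut 16384 1 (.R 4 0 true) (.rot (.cut 1 16384 (.cut 3 1 .P (.rot (.cut 9 1 (.rot (.rot (.cut 1 3 .P (.rot (.cut 28 1 (.rot (.rot (.cut 1 6 .P (.R 4 0 true)))) .P))))) .P))) (.rot (.cut 262144 1 .N (.rot (.rot (.cut 5 1 (.rot (.cut 2 3 (.R 4 0 true) (.rot (.cut 1 9 .P (.cut 1 28 .P (.R 4 0 true)))))) (.R 4 0 true)))))))))) .P) .P)))) (.rot (.rot (.cut 2048 1 (.rot (.rot (.cut 1 1024 .P (.rot (.cut 16384 1 (.rot (.rot (.cut 1 4096 (.rot (.rot (.cut 1 3 (.R 4 0 true) (.rot (.cut 3 2 (.cut 7 1 (.rot (.cut 3 4 (.rot (.rot (.cut 13 1 .P (.cut 1 2 .P (.R 4 0 true))))) .P)) (.R 4 0 true)) (.R 4 0 true)))))) .N))) (.cut 1 3 (.rot (.rot (.cut 3 1 .P (.rot (.cut 3 1 (.cut 6 1 (.R 4 0 true) .P) .P))))) .P)))))) .P))))))))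 (.rot (.rot (.cut 128 1 (.rot (.rot (.cut 1 59 .P (.rot (.cut 1024 1 (.rot (.rot (.cut 1 256 (.rot (.rot (.cut 1 5 (.rot (.rot (.cut 7 1 (.rot (.rot (.cut 1 11 (.cut 2 1 (.rot (.rot (.cut 2 3 (.R 4 0 true) .P))) (.R 4 0 true)) .N))) (.cut 1 3 (.rot (.rot (.cut 3 2 .P (.rot (.cut 2 1 (.R 4 0 true) .P))))) .P)))) (.rot (.rot (.cut 11 1 (.rot (.rot (.cut 2 1 (.rot (.rot (.cut 1 34 .N (.rot (.cut 5 1 (.rot (.rot (.cut 1 64 (.R 4 0 true) (.rot (.cut 10 1 .P (.R 4 0 true)))))) .N))))) .N))) (.cut 1 2 (.rot (.rot (.cut 34 1 (.cut 64 1 .P (.R 4 0 true)) (.R 4 0 true)))) .P))))))) (.rot (.cut 4096 1 .N (.rot (.cut 1 7 (.rot (.rot (.cut 2 3 .N (.cut 1 7 .N (.rot (.rot (.cut 4 1 (.rot (.rot (.cut 3 1 (.rot (.rot (.cut 1 25 (.rot (.rot (.cut 4 1 .P (.rot (.cut 2 1 (.R 4 0 true) .P))))) .P))) (.cut 1 2 (.rot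 (.rot (.cut 1 4 (.R 4 0 true) .P))) (.R 4 0 true))))) (.rot (.rot (.cut 25 1 (.rot (.rot (.cut 1 13 (.rot (.rot (.cut 1 4 .P (.rot (.cut 2 1 (.R 4 0 true) .P))))) .P))) (.rot (.rot (.cut 4 1 (.R 4 0 true) (.rot (.cut 1 2 .P (.R 4 0 true)))))))))))))))) .N))))))) .P))))) (.rot (.cut 1 5 (.rot (.rot (.cut 1 5 (.rot (.rot (.cut 1 1 .P (.rot (.cut 3 1 .P (.rot (.cut 1 2 (.cut 2 1 (.rot (.rot (.cut 1 2 (.cut 2 1 .P (.rot (.rot (.cut 2 1 (.rot (.rot (.cut 1 1 (.R 7 0 true) .P))) (.rot (.cut 1 2 .P (.R 7 0 true))))))) (.rot (.rot (.cut 1 1 (.rot (.cut 1 9 (.rot (.cut 1 4 (.rot (.cut 1 4 (.rot (.rot (.cut 2 1 (.R 7 0 true) (.cut 1 2 (.R 7 0 true) .P)))) (.R 7 0 true))) .P)) (.rot (.rot (.cut 4 1 .P (.rot (.rot (.cut 35 1 (.R 7 0 true) (.cut 1 2 (.R 7 0 true) (.rot (.cut 1 2 (.cut 2 1 .P (.R 7 0 true))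 (.R 7 0 true)))))))))))) (.R 7 0 true))))))) .P) .P))))))) .P))) .P)))))) (.rot (.rot (.cut 59 1 (.rot (.cut 1 1024 (.cut 22 1 (.rot (.cut 1 16384 (.cut 3 1 (.rot (.cut 1 256 (.rot (.rot (.cut 6 1 .P (.rot (.cut 2 1 (.rot (.rot (.cut 1 2 .P (.cut 1 4 .P (.R 4 0 true))))) .P))))) .P)) (.rot (.cut 1 128 .N (.cut 1 256 (.R 4 0 true) (.rot (.cut 256 1 .P (.cut 1 2 .P (.R 4 0 true)))))))) (.rot (.cut 256 1 .N (.rot (.cut 128 1 (.rot (.rot (.cut 1 2 .N (.cut 1 5 .N (.rot (.cut 256 1 (.rot (.rot (.cut 1 10 (.R 4 0 true) .P))) (.R 4 0 true))))))) .N)))))) (.rot (.rot (.cut 16384 1 (.rot (.rot (.cut 1 8192 (.rot (.rot (.cut 1 5 .N (.rot (.cut 3 1 (.rot (.rot (.cut 1 12 (.cut 2 1 (.cut 4 1 (.R 4 0 true) .P) .P) .P))) (.R 4 0 true)))))) .N))) (.rot (.rot (.cut 5 1 (.rot (.cut 1 5 (.rot (.rot (.cut 12 1 .P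 (.cut 1 2 .P (.rot (.cut 2 1 (.rot (.rot (.cut 1 4 .P (.rot (.cut 4 1 (.R 4 0 true) .P))))) .P)))))) .P)) (.rot (.cut 1 3 (.R 4 0 true) (.rot (.cut 5 1 (.rot (.rot (.cut 1 6 (.rot (.rot (.cut 1 2 .P (.rot (.cut 2 1 (.rot (.rot (.cut 1 4 .P (.rot (.cut 4 1 (.R 4 0 true) .P))))) .P))))) .P))) (.rot (.cut 4 3 (.rot (.rot (.cut 1 2 .P (.cut 1 4 .P (.R 4 0 true))))) (.rot (.cut 2 1 (.cut 4 1 (.R 4 0 true) .P) .P))))))))))))))) (.cut 1 32768 (.rot (.cut 1 131072 .P (.rot (.cut 8192 1 (.rot (.rot (.cut 1 262144 (.rot (.rot (.cut 5 1 (.R 4 0 true) .P))) (.R 4 0 true)))) (.cut 1 3 (.rot (.cut 3 2 (.R 4 0 true) (.rot (.cut 1 5 .P (.R 4 0 true))))) .P))))) (.rot (.cut 1 5 .P (.rot (.cut 131072 1 (.cut 262144 1 (.R 4 0 true) .P) .P))))))) .P))))))))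

theorem c0 : Covered packed FP FN O (1, 0, 0) (0, 1, 0) (0, 0, 1) :=
  Tr.check_sound t0 (by decide +kernel)

end Pool.Agent.Rohlin.Octic.O15
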