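import Pool.Agent.Rohlin.Octic.O15.Ovals

/-!
# The octic O15: subdivision trees, part 1
-/

set_option autoImplicit false

namespace Pool.Agent.Rohlin.Octic.O15

open Pool.Agent.Rohlin.Cone

/-- tree -/
def t1 : Tr :=
  (.rot (.cut 1 1 (.rot (.cut 5 1 (.cut 512 1 (.cut 32768 1 (.rot (.rot (.cut 7 1 (.rot (.rot (.cut 1 131072 .P .P))) .P))) (.rot (.cut 1 4096 (.rot (.cut 14 1 (.rot (.rot (.cut 3 1 .P (.rot (.cut 38 1 (.rot (.rot (.cut 1 2 .P (.rot (.cut 64 1 (.rot (.rot (.cut 1 5 (.cut 2 1 (.rot (.cut 5 1 .P .P)) (.R 11 0 true)) (.R 11 0 true)))) .P))))) .P))))) (.rot (.cut 1 5 .P .P)))) (.rot (.rot (.cut 1 14 (.rot (.rot (.cut 131072 1 .P .P))) (.rot (.rot (.cut 262144 1 (.rot (.rot (.cut 1 8192 (.cut 3 2 (.rot (.rot (.cut 1 33 .P (.rot (.cut 6 1 (.R 11 0 true) .P))))) .P) .P))) (.rot (.cut 1 38 .P (.rot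 (.cut 33 1 (.rot (.cut 1 1 (.R 11 0 true) (.rot (.cut 1 64 .P (.R 11 0 true))))) .P))))))))))))) (.rot (.cut 1 52 .P (.rot (.rot (.cut 1 14 (.rot (.cut 1 8192 (.rot (.cut 1 5 (.cut 2 1 .P .P) .P)) (.rot (.cut 4096 1 (.cut 8192 1 .P (.rot (.rot (.cut 1 3 (.rot (.rot (.cut 4 1 (.rot (.cut 1 1 (.R 11 0 true) (.rot (.cut 1 5 .P (.R 11 0 true))))) (.rot (.rot (.cut 1 1 .P (.rot (.rot (.cut 3 1 (.rot (.rot (.cut 1 3 (.R 11 0 true) (.rot (.cut 6 1 (.rot (.rot (.cut 1 6 (.R 11 0 true) .P))) (.R 11 0 true)))))) (.R 11 0 true)))))))))) (.rot (.cut 2 3 .P (.rot (.cut 5 1 (.rot (.rot (.cut 1 6 .P (.R 11 0 true)))) .P)))))))) (.rot (.cut 5 1 (.rot (.rot (.cut 1 3 (.cut 2 1 (.rot (.rot (.cut 1 6 (.cut 2 1 .P (.rot (.cut 1 3 (.rot (.rot (.cut 1 2 .P (.rot (.cut 2 1 (.rot (.rot (.cut 1 4 .P (.cut 1 8 .P (.R 11 0 true)))))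 .P))))) .P))) (.rot (.cut 5 1 .N (.cut 1 2 (.R 11 0 true) (.rot (.cut 3 1 .P (.cut 1 2 .P (.R 11 0 true)))))))))) .P) .P))) (.cut 1 2 (.rot (.rot (.cut 6 1 (.rot (.rot (.cut 1 22 (.cut 3 1 (.rot (.rot (.cut 1 1 (.rot (.cut 3 1 (.rot (.rot (.cut 2 1 (.R 11 0 true) .P))) (.R 11 0 true))) (.rot (.cut 6 1 .P (.rot (.cut 1 3 (.rot (.rot (.cut 1 2 .P (.R 11 0 true)))) .P))))))) .N) .N))) (.cut 1 2 (.rot (.rot (.cut 1 1 .P (.rot (.cut 2 1 (.rot (.rot (.cut 1 2 .P (.rot (.cut 4 1 (.cut 8 1 (.R 11 0 true) .P) .P))))) .P))))) .P)))) (.rot (.cut 1 4 (.rot (.rot (.cut 1 4 (.rot (.rot (.cut 3 2 (.rot (.rot (.cut 1 4 (.rot (.rot (.cut 1 2 .N (.rot (.cut 2 1 (.rot (.rot (.cut 1 4 (.R 11 0 true) (.rot (.cut 4 1 (.cut 8 1 .P (.R 11 0 true)) (.R 11 0 true)))))) .N))))) .N))) (.cut 1 4 (.rot (.cut 1 4 (.rot (.rot (.cut 2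 1 (.R 11 0 true) (.cut 1 2 (.R 11 0 true) .P)))) (.rot (.cut 2 1 (.cut 4 1 .P (.R 11 0 true)) (.R 11 0 true))))) .P)))) (.rot (.cut 3 1 (.cut 6 1 .P (.rot (.rot (.cut 4 3 (.rot (.rot (.cut 4 3 (.R 11 0 true) (.rot (.cut 8 1 (.rot (.rot (.cut 1 5 (.R 11 0 true) .P))) (.R 11 0 true)))))) (.R 11 0 true))))) (.rot (.cut 4 1 .N (.rot (.cut 3 4 (.rot (.rot (.cut 1 2 .N (.rot (.cut 5 1 (.rot (.rot (.cut 1 4 (.R 11 0 true) (.cut 1 8 (.R 11 0 true) .P)))) (.R 11 0 true)))))) .N))))))))) (.rot (.cut 22 1 .N (.rot (.cut 2 3 (.rot (.rot (.cut 1 3 .N (.rot (.cut 4 1 (.rot (.rot (.cut 1 6 (.cut 2 1 (.rot (.rot (.cut 3 4 .P (.R 11 0 true)))) .P) .P))) (.cut 1 2 (.rot (.rot (.cut 4 3 (.R 11 0 true) (.rot (.cut 2 1 .P (.R 11 0 true)))))) .N)))))) .N))))))))))))) (.rot (.rot (.cut 8192 1 .P .P))))))))) (.cut 1 33 (.rot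 (.cut 1 128 (.rot (.rot (.cut 5 1 .P (.rot (.cut 5 1 .P (.rot (.cut 1 1 (.rot (.rot (.cut 1 3 (.rot (.rot (.cut 2 1 .P (.rot (.rot (.cut 4 3 (.rot (.cut 1 15 .P (.rot (.cut 2 1 (.cut 5 1 .P (.rot (.cut 7 1 (.rot (.cut 1 6 (.rot (.rot (.cut 14 1 (.R 14 0 true) .P))) (.R 14 0 true))) .P))) (.cut 1 2 (.cut 2 1 (.rot (.rot (.cut 1 7 .P (.rot (.cut 4 1 (.rot (.rot (.cut 1 14 .P (.R 14 0 true)))) .P))))) .P) .P))))) .P)))))) .P))) .P))))))) (.rot (.cut 52 1 .P .P)))) (.rot (.rot (.cut 128 1 (.rot (.cut 1 512 (.cut 3 1 .P .P) (.rot (.cut 1 1 .P .P)))) (.rot (.rot (.cut 512 1 .P (.rot (.cut 1 5 (.rot (.rot (.cut 1 3 (.rot (.rot (.cut 2 3 (.rot (.rot (.cut 3 4 .P (.rot (.cut 5 1 (.rot (.cut 1 1 .P (.rot (.cut 1 10 (.rot (.cut 1 1 (.R 14 0 true) (.rot (.rot (.cut 4 1 .P .P))))) (.rot (.rot (.cut 1 1 .P (.rot (.cut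 1 22 (.rot (.cut 1 1 (.rot (.rot (.cut 2 1 (.R 14 0 true) (.cut 1 2 (.R 14 0 true) .P)))) (.R 14 0 true))) .P))))))))) .P))))) .P))) (.rot (.cut 3 1 (.rot (.cut 1 1 .P .P)) (.rot (.cut 4 3 (.rot (.rot (.cut 1 2 (.rot (.rot (.cut 1 7 (.R 14 0 true) (.rot (.cut 2 1 (.rot (.rot (.cut 1 14 (.rot (.rot (.cut 3 1 .P (.rot (.cut 2 1 (.R 14 0 true) .P))))) .P))) (.rot (.rot (.cut 1 3 (.R 14 0 true) (.rot (.cut 1 2 .P (.rot (.rot (.cut 1 3 (.R 14 0 true) (.rot (.cut 1 4 .P (.R 14 0 true)))))))))))))))) (.rot (.cut 10 1 (.rot (.rot (.cut 1 5 (.R 14 0 true) (.rot (.cut 22 1 .P (.rot (.rot (.cut 5 1 (.R 14 0 true) (.rot (.cut 1 2 (.cut 2 1 .P (.R 14 0 true)) (.R 14 0 true))))))))))) (.R 14 0 true)))))) (.rot (.cut 1 1 (.rot (.cut 3 1 .P .P)) (.rot (.cut 7 1 (.cut 14 1 .P (.rot (.rot (.cut 12 1 (.rot (.rot (.cut 1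 7 (.R 14 0 true) (.cut 1 14 (.R 14 0 true) .P)))) (.rot (.cut 1 2 .P (.R 14 0 true))))))) (.rot (.cut 1 3 (.R 14 0 true) (.rot (.cut 7 1 (.cut 14 1 .P (.R 14 0 true)) (.R 14 0 true)))))))))))))))) .P))))))))))) (.rot (.rot (.cut 1 5 (.cut 33 1 (.rot (.cut 1 128 (.rot (.cut 1 512 .P (.cut 1 4096 .P .P))) (.rot (.rot (.cut 512 1 (.rot (.cut 1 2048 (.rot (.cut 1 4096 .P (.rot (.cut 4096 1 (.rot (.rot (.cut 1 32768 (.rot (.rot (.cut 4 1 (.cut 12 1 .P (.rot (.cut 1 2 (.rot (.rot (.cut 1 2 (.rot (.rot (.cut 3 2 .N (.rot (.cut 2 1 (.rot (.rot (.cut 1 5 (.R 13 0 true) .P))) (.R 13 0 true)))))) .N))) (.cut 1 4 (.rot (.cut 1 1 (.rot (.rot (.cut 2 1 (.cut 4 1 (.R 13 0 true) .P) .P))) (.rot (.cut 2 3 (.cut 5 1 .P (.R 13 0 true)) (.R 13 0 true))))) .P)))) (.rot (.cut 2 1 (.rot (.rot (.cut 1 2 (.rot (.cut 1 1 (.rot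 (.rot (.cut 2 1 (.cut 4 1 (.rot (.rot (.cut 1 4 (.cut 2 1 .P (.R 13 0 true)) (.R 13 0 true)))) .P) .P))) (.rot (.rot (.cut 4 1 .N (.rot (.cut 1 2 (.rot (.rot (.cut 1 2 (.R 13 0 true) (.rot (.cut 2 1 (.cut 4 1 .P (.R 13 0 true)) (.R 13 0 true)))))) .N))))))) (.rot (.cut 5 1 .P (.rot (.cut 1 1 (.rot (.rot (.cut 1 2 .P (.rot (.cut 2 1 (.rot (.rot (.cut 1 4 (.rot (.rot (.cut 1 1 (.R 13 0 true) (.rot (.cut 2 1 .P (.R 13 0 true)))))) .N))) (.rot (.rot (.cut 1 1 .P (.rot (.cut 1 2 (.R 13 0 true) (.cut 1 4 (.R 13 0 true) .P))))))))))) .P))))))) (.rot (.cut 2 1 (.rot (.rot (.cut 1 2 .N (.rot (.cut 4 1 (.rot (.rot (.cut 1 4 (.rot (.rot (.cut 2 3 .P (.rot (.cut 2 1 (.R 13 0 true) .P))))) .P))) (.rot (.rot (.cut 3 2 (.R 13 0 true) (.rot (.cut 1 2 .P (.cut 1 4 .P (.R 13 0 true)))))))))))) .N))))))) .P))) (.cut 1 3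 (.rot (.rot (.cut 1 4 (.cut 2 1 .P (.rot (.cut 1 3 (.rot (.rot (.cut 1 2 .P (.cut 1 4 .P (.rot (.cut 2 1 (.rot (.cut 2 1 (.rot (.rot (.cut 4 1 (.R 13 0 true) (.cut 1 2 (.R 13 0 true) .P)))) (.R 13 0 true))) .P)))))) .P))) (.cut 1 12 (.rot (.rot (.cut 3 1 .P (.rot (.cut 2 1 (.rot (.cut 1 3 (.R 13 0 true) (.rot (.cut 1 2 .P (.rot (.rot (.cut 1 3 (.R 13 0 true) (.rot (.cut 1 4 (.cut 2 1 .P (.R 13 0 true)) (.R 13 0 true)))))))))) (.rot (.cut 3 4 (.rot (.rot (.cut 1 2 (.R 13 0 true) .P))) (.rot (.cut 3 1 .P (.R 13 0 true)))))))))) .P)))) .P))))) (.rot (.rot (.cut 4096 1 (.rot (.cut 1 16384 (.rot (.cut 1 32768 (.rot (.rot (.cut 3 1 (.rot (.cut 1 1 (.rot (.rot (.cut 6 1 .P (.rot (.cut 2 1 (.rot (.rot (.cut 1 2 .P (.rot (.cut 4 1 (.rot (.rot (.cut 1 4 .P (.cut 1 8 .P (.R 12 0 true))))) .P))))) .P))))) .P)) (.rot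 (.cut 2 1 (.cut 5 1 (.rot (.rot (.cut 1 3 (.cut 3 1 .N (.cut 1 2 .N (.rot (.cut 2 1 (.rot (.rot (.cut 1 4 (.R 12 0 true) .P))) (.R 12 0 true))))) (.rot (.cut 11 1 .P (.cut 1 2 .P (.rot (.cut 1 2 (.rot (.rot (.cut 1 4 .P (.cut 1 8 .P (.R 12 0 true))))) .P)))))))) .N) (.rot (.cut 1 1 (.rot (.rot (.cut 1 2 (.rot (.rot (.cut 1 1 .P (.rot (.cut 2 1 (.cut 4 1 (.rot (.rot (.cut 1 2 (.rot (.rot (.cut 1 4 (.R 12 0 true) (.rot (.cut 2 1 .P (.R 12 0 true)))))) .N))) (.rot (.rot (.cut 4 1 .P (.rot (.cut 1 2 (.R 12 0 true) .P)))))) .P))))) .P))) (.cut 1 2 (.rot (.rot (.cut 1 1 (.rot (.rot (.cut 1 2 (.rot (.cut 1 2 (.rot (.rot (.cut 2 1 .P (.R 12 0 true)))) .P)) (.rot (.cut 2 1 .N (.rot (.cut 2 1 (.rot (.rot (.cut 1 2 (.R 12 0 true) .P))) (.R 12 0 true)))))))) .P))) (.rot (.rot (.cut 2 1 .N (.rot (.cut 1 4 (.rot (.rot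 (.cut 1 2 (.R 12 0 true) .P))) (.R 12 0 true)))))))))))))) (.rot (.cut 32768 1 (.rot (.rot (.cut 1 131072 (.rot (.rot (.cut 3 1 (.rot (.cut 2 3 (.rot (.rot (.cut 8 1 .P (.rot (.cut 4 1 (.rot (.cut 1 4 .P (.rot (.cut 1 2 (.R 13 0 true) (.cut 1 4 (.R 13 0 true) .P))))) .P))))) .P)) .P))) .P))) (.rot (.rot (.cut 1 3 .P (.rot (.cut 1 2 (.cut 2 1 (.rot (.rot (.cut 1 8 (.rot (.rot (.cut 3 2 (.R 13 0 true) (.rot (.cut 2 1 (.rot (.rot (.cut 1 4 .N (.rot (.cut 4 1 (.rot (.rot (.cut 1 8 (.R 13 0 true) .P))) (.R 13 0 true)))))) (.R 13 0 true)))))) (.rot (.cut 4 1 .P (.cut 1 2 .P (.R 13 0 true))))))) (.rot (.rot (.cut 2 3 (.rot (.rot (.cut 2 1 .N (.rot (.cut 4 1 (.rot (.rot (.cut 1 2 (.R 13 0 true) (.rot (.cut 8 1 .P (.R 13 0 true)))))) .N))))) .N)))) (.cut 1 5 (.cut 2 1 (.rot (.cut 1 3 (.rot (.rot (.cut 4 1 (.R 13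 0 true) (.cut 1 2 (.R 13 0 true) .P)))) (.rot (.cut 1 2 (.cut 2 1 .P (.R 13 0 true)) (.R 13 0 true))))) .P) .P)))))))))) (.rot (.rot (.cut 32768 1 (.rot (.rot (.cut 1 1 (.rot (.rot (.cut 1 131072 (.rot (.rot (.cut 262144 1 .P (.rot (.cut 3 1 (.rot (.rot (.cut 1 3 .P (.rot (.cut 6 1 .P (.rot (.cut 2 1 (.rot (.rot (.cut 1 2 .P (.rot (.cut 4 1 (.R 12 0 true) .P))))) .P))))))) .P))))) (.rot (.cut 5 1 (.rot (.rot (.cut 1 524288 (.cut 2 1 .P (.R 4 1 true)) (.R 4 1 true)))) .P))))) (.cut 1 7 .P .P)))) (.rot (.rot (.cut 131072 1 (.rot (.rot (.cut 1 65536 .P (.rot (.cut 524288 1 (.R 4 1 true) (.cut 1 2 (.R 4 1 true) .P)))))) (.rot (.cut 1 2 (.rot (.rot (.cut 1 3 (.rot (.rot (.cut 1 1 (.cut 2 1 (.R 12 0 true) (.rot (.cut 4 3 (.rot (.rot (.cut 1 2 (.cut 2 1 (.rot (.rot (.cut 1 3 .P (.R 12 0 true)))) .P) .P))) (.cut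 1 7 (.rot (.rot (.cut 3 1 (.R 12 0 true) .P))) (.R 12 0 true))))) .P))) (.cut 1 6 (.cut 2 1 (.R 12 0 true) (.rot (.cut 1 5 .P (.cut 1 11 (.cut 2 1 .P (.R 12 0 true)) (.R 12 0 true))))) (.rot (.cut 2 1 .P (.cut 1 2 .P (.rot (.cut 5 1 (.rot (.rot (.cut 1 4 (.cut 2 1 .P (.rot (.cut 4 3 (.R 12 0 true) .P))) (.rot (.cut 11 1 .N (.rot (.cut 3 4 (.rot (.rot (.cut 1 2 (.R 12 0 true) .P))) (.R 12 0 true)))))))) .P))))))))) (.rot (.rot (.cut 1 1 .P (.rot (.cut 1 5 (.rot (.rot (.cut 1 2 (.rot (.rot (.cut 3 4 (.rot (.cut 1 3 (.rot (.rot (.cut 7 1 (.cut 14 1 (.R 12 0 true) .P) .P))) (.R 12 0 true))) (.rot (.cut 2 1 .P (.rot (.cut 3 1 (.rot (.rot (.cut 1 2 .P (.R 12 0 true)))) .P))))))) .N))) (.cut 1 11 (.rot (.rot (.cut 4 3 .P (.rot (.cut 2 1 (.rot (.rot (.cut 1 7 .P (.rot (.cut 4 1 (.rot (.rot (.cut 1 14 .P (.rot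 (.cut 8 1 (.R 12 0 true) .P))))) .P))))) .P))))) .P)))))))))))))))) (.rot (.rot (.cut 16384 1 (.rot (.rot (.cut 1 16384 .P (.rot (.cut 65536 1 (.R 4 1 true) .P))))) (.rot (.cut 1 3 (.rot (.rot (.cut 1 3 (.cut 3 1 .P (.rot (.rot (.cut 5 1 (.rot (.rot (.cut 1 2 (.rot (.rot (.cut 1 5 (.rot (.cut 1 5 (.rot (.rot (.cut 2 1 .P (.rot (.cut 2 1 (.R 12 0 true) .P))))) .P)) (.rot (.rot (.cut 5 1 (.rot (.rot (.cut 2 1 (.rot (.rot (.cut 1 19 .P (.rot (.cut 4 1 (.R 12 0 true) .P))))) .P))) (.rot (.rot (.cut 19 1 (.R 12 0 true) (.rot (.cut 1 2 .P (.R 12 0 true)))))))))))) .P))) (.rot (.cut 1 3 (.rot (.rot (.cut 1 2 (.rot (.cut 2 3 (.rot (.cut 1 7 (.rot (.rot (.cut 4 1 .P (.R 12 0 true)))) .P)) (.rot (.cut 1 1 .N (.rot (.cut 7 1 (.rot (.rot (.cut 1 2 (.R 12 0 true) .P))) (.R 12 0 true))))))) (.rot (.cut 2 1 (.cut 4 1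 .P (.rot (.cut 1 1 (.R 12 0 true) .P))) (.rot (.cut 3 2 .N (.rot (.cut 1 1 (.rot (.rot (.cut 1 4 (.R 12 0 true) .P))) (.R 12 0 true)))))))))) (.rot (.cut 5 1 .N (.rot (.cut 1 1 (.rot (.rot (.cut 1 2 (.R 12 0 true) (.rot (.cut 2 1 .P (.R 12 0 true)))))) .N)))))))))) (.cut 1 6 (.cut 2 1 (.rot (.rot (.cut 2 1 .P (.rot (.cut 4 1 (.rot (.rot (.cut 1 2 .P (.rot (.cut 8 1 (.rot (.rot (.cut 1 4 .P (.R 12 0 true)))) .P))))) .P))))) .P) .P)))) .P)))))))))) (.rot (.rot (.cut 2048 1 (.rot (.rot (.cut 1 1024 .P (.rot (.cut 16384 1 (.rot (.rot (.cut 1 4096 (.cut 3 2 .P (.rot (.cut 7 1 (.rot (.rot (.cut 1 4 .P (.R 4 1 true)))) .P))) (.rot (.cut 16384 1 .N (.rot (.cut 1 7 (.rot (.rot (.cut 2 3 (.R 4 1 true) (.rot (.rot (.cut 1 1 .P (.R 4 1 true))))))) (.R 4 1 true)))))))) .P))))) .P)))))))) (.rot (.rot (.cut 128 1 (.rot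 (.rot (.cut 1 59 .P (.rot (.cut 1024 1 (.rot (.rot (.cut 1 256 .P (.rot (.cut 4096 1 (.rot (.rot (.cut 1 512 (.rot (.rot (.cut 1 5 (.cut 3 1 (.rot (.rot (.cut 5 1 (.rot (.rot (.cut 1 64 .P (.rot (.cut 25 1 (.rot (.rot (.cut 1 128 .P (.rot (.cut 53 1 (.F 4 true) (.R 4 1 true)))))) .P))))) (.R 4 1 true)))) (.rot (.cut 1 19 .P (.rot (.cut 64 1 (.rot (.rot (.cut 1 41 .P (.rot (.cut 128 1 (.F 4 true) .P))))) .P))))) (.rot (.cut 4 3 .P (.rot (.cut 19 1 (.rot (.rot (.cut 1 5 .P (.rot (.cut 41 1 (.R 4 0 true) .P))))) .P))))))) (.cut 1 512 (.rot (.cut 16 1 .N (.rot (.cut 1 5 (.R 4 1 true) (.cut 1 25 (.R 4 1 true) (.cut 1 53 (.R 4 1 true) .N)))))) .N)))) (.rot (.rot (.cut 5 1 .P (.rot (.cut 2 3 (.rot (.rot (.cut 1 3 .P (.rot (.cut 4 1 (.R 4 1 true) .P))))) .P)))))))))) .P))))) .P)))) (.cut 1 512 (.rot (.rot (.cut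 59 1 (.cut 256 1 (.rot (.cut 10 1 (.rot (.cut 1 16384 .P (.rot (.cut 512 1 (.rot (.rot (.cut 1 16384 (.rot (.rot (.cut 44 1 (.rot (.cut 1 3 (.rot (.rot (.cut 128 1 (.R 4 0 true) .P))) (.R 4 0 true))) (.rot (.cut 4 3 .P (.rot (.cut 3 1 (.R 4 0 true) .P))))))) (.R 4 0 true)))) (.rot (.rot (.cut 1 44 .P (.rot (.cut 3 4 (.cut 5 1 (.rot (.rot (.cut 1 128 .P (.R 4 0 true)))) .P) .P))))))))) (.rot (.cut 1 4096 (.cut 3 1 (.cut 8 1 .P .P) .P) (.rot (.cut 16384 1 (.rot (.rot (.cut 1 8192 (.cut 4 3 .P (.rot (.cut 5 1 (.rot (.rot (.cut 1 6 .P (.R 4 0 true)))) .P))) (.rot (.cut 16384 1 (.R 4 0 true) (.rot (.cut 1 5 (.rot (.rot (.cut 3 4 (.R 4 0 true) .P))) (.R 4 0 true)))))))) .P)))))) .P) .P))) (.cut 1 32768 (.rot (.rot (.cut 4096 1 (.rot (.cut 13 1 (.rot (.cut 1 524288 .P (.rot (.cut 8192 1 (.R 4 0 true) (.rot (.cut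 44 1 (.rot (.rot (.cut 3 4 (.cut 6 1 (.R 4 0 true) .P) .P))) (.R 4 0 true))))))) (.rot (.cut 1 131072 (.rot (.cut 3 1 .P (.rot (.rot (.cut 10 1 (.rot (.rot (.cut 1 4 (.rot (.rot (.cut 1 4 .P (.rot (.cut 3 1 .P (.rot (.cut 5 1 (.cut 10 1 (.R 10 0 true) .P) .P))))))) .P))) .P))))) (.rot (.cut 524288 1 (.rot (.rot (.cut 1 262144 .P (.R 4 0 true)))) .P)))))) (.rot (.rot (.cut 1 13 (.rot (.rot (.cut 5 1 (.rot (.rot (.cut 1 64 (.rot (.cut 1 4 (.rot (.cut 1 4 .N (.rot (.cut 3 1 (.rot (.rot (.cut 1 9 .N (.rot (.cut 6 1 (.rot (.rot (.cut 1 18 (.rot (.rot (.cut 3 2 .P (.rot (.cut 2 1 (.R 10 0 true) .P))))) .P))) (.cut 1 2 (.rot (.rot (.cut 2 3 (.R 10 0 true) .P))) (.R 10 0 true))))))) .N)))) (.rot (.cut 2 1 (.cut 4 1 (.rot (.rot (.cut 1 9 .N (.rot (.cut 8 1 (.rot (.rot (.cut 1 18 (.R 10 0 true) (.rot (.cut 16 1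 .P (.R 10 0 true)))))) .N))))) .N) (.rot (.cut 4 1 (.rot (.rot (.cut 1 2 .N (.rot (.cut 9 1 (.rot (.rot (.cut 1 4 (.cut 2 1 (.R 10 0 true) (.rot (.cut 2 1 .P (.R 10 0 true)))) (.rot (.cut 18 1 .P (.cut 1 2 .P (.rot (.cut 1 2 (.R 10 0 true) .P)))))))) .N))))) .N)))))) (.rot (.cut 23 1 (.rot (.rot (.cut 1 128 (.rot (.rot (.cut 2 1 (.rot (.rot (.cut 1 4 (.cut 2 1 (.rot (.rot (.cut 1 1 (.rot (.rot (.cut 1 4 (.rot (.rot (.cut 2 1 (.R 10 0 true) (.rot (.cut 2 1 .P (.R 10 0 true)))))) .N))) (.rot (.rot (.cut 1 2 .P (.rot (.cut 1 2 (.R 10 0 true) .P)))))))) (.rot (.cut 1 2 (.cut 2 1 .P (.rot (.cut 1 1 (.R 10 0 true) .P))) (.rot (.cut 4 1 .N (.rot (.cut 1 1 (.rot (.rot (.cut 1 2 (.R 10 0 true) .P))) (.R 10 0 true)))))))) (.rot (.cut 4 1 (.cut 8 1 .P (.rot (.rot (.cut 2 1 (.rot (.rot (.cut 1 1 (.R 10 0 true) .P)))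 (.R 10 0 true))))) (.rot (.cut 2 1 .N (.cut 1 2 (.R 10 0 true) (.rot (.cut 1 1 .P (.R 10 0 true))))))))))) (.rot (.cut 2 1 .N (.rot (.cut 1 1 (.rot (.rot (.cut 1 2 .N (.cut 1 4 (.R 10 0 true) (.rot (.cut 2 1 .P (.R 10 0 true))))))) .N))))))) .P))) (.rot (.cut 4 1 (.cut 9 1 (.rot (.cut 1 9 (.rot (.cut 1 45 (.R 10 0 true) (.rot (.cut 18 1 .P (.R 10 0 true))))) .P)) (.rot (.cut 1 5 .N (.rot (.cut 9 1 (.rot (.rot (.cut 1 10 (.R 10 0 true) .P))) (.R 10 0 true)))))) (.rot (.cut 1 2 .N (.cut 1 4 .N (.rot (.cut 5 1 (.rot (.rot (.cut 1 8 (.R 10 0 true) (.rot (.cut 10 1 .P (.R 10 0 true)))))) .N)))))))))))) (.rot (.cut 4 1 (.rot (.rot (.cut 1 4 (.rot (.rot (.cut 1 5 .P .P))) .P))) (.rot (.cut 1 2 (.rot (.rot (.cut 1 3 (.R 10 0 true) (.rot (.cut 2 1 (.rot (.rot (.cut 1 5 (.R 10 0 true) (.rot (.cut 4 1 .P (.cut 1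 2 .P (.R 10 0 true))))))) (.R 10 0 true)))))) (.cut 1 4 (.R 10 0 true) (.rot (.cut 5 1 (.rot (.rot (.cut 1 8 (.R 10 0 true) (.cut 1 16 (.R 10 0 true) .P)))) (.R 10 0 true))))))))))) (.rot (.cut 1 3 .P (.rot (.cut 64 1 (.rot (.rot (.cut 1 8 (.rot (.rot (.cut 1 29 (.rot (.cut 1 26 (.rot (.rot (.cut 2 1 (.R 10 0 true) (.cut 1 2 (.R 10 0 true) .P)))) (.rot (.cut 10 1 (.rot (.cut 2 1 (.rot (.rot (.cut 21 1 .P (.R 10 0 true)))) .P)) (.R 10 0 true))))) .P))) (.rot (.cut 128 1 .P (.cut 1 2 (.rot (.cut 1 42 (.rot (.cut 1 4 (.R 10 0 true) (.rot (.cut 2 1 (.cut 4 1 .P (.R 10 0 true)) (.R 10 0 true))))) .P)) (.rot (.cut 1 10 .N (.rot (.cut 42 1 (.rot (.rot (.cut 1 21 (.R 10 0 true) .P))) (.R 10 0 true))))))))))) (.rot (.rot (.cut 29 1 .P (.rot (.cut 1 3 (.rot (.rot (.cut 1 2 (.rot (.rot (.cut 1 1 (.R 10 0 true) (.rot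 (.cut 2 1 .P (.R 10 0 true)))))) .N))) (.rot (.cut 8 1 (.rot (.rot (.cut 1 6 (.cut 2 1 (.rot (.rot (.cut 1 2 .P (.R 10 0 true)))) .P) .P))) (.rot (.cut 1 1 .P (.rot (.cut 2 1 (.R 10 0 true) .P))))))))))))))))))))) (.rot (.cut 1 5 .P (.rot (.cut 131072 1 (.cut 262144 1 (.R 4 0 true) .P) .P)))))))))))

theorem c1 : Covered packed FP FN O (-1, 0, 0) (0, 1, 0) (0, 0, 1) :=
  Tr.check_sound t1 (by decide +kernel)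

end Pool.Agent.Rohlin.Octic.O15
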