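import Pool.Agent.Rohlin.Octic.O15.Ovals

/-!
# The octic O15: subdivision trees, part 2
-/

set_option autoImplicit false

namespace Pool.Agent.Rohlin.Octic.O15

open Pool.Agent.Rohlin.Cone

/-- tree -/
def t2 : Tr :=
  (.rot (.cut 1 1 (.rot (.cut 5 1 (.cut 512 1 .P (.rot (.cut 1 52 (.rot (.rot (.cut 1 12 .P (.rot (.cut 3 1 (.rot (.rot (.cut 1 30 .P (.rot (.cut 6 1 (.rot (.cut 8 1 (.rot (.rot (.cut 12 1 (.rot (.rot (.cut 1 256 (.rot (.rot (.cut 8 1 (.rot (.rot (.cut 1 20 (.R 15 0 true) (.rot (.cut 17 1 .P (.rot (.rot (.cut 1 1 (.R 15 0 true) .P)))))))) (.rot (.cut 3 1 (.rot (.rot (.cut 1 2 (.R 15 0 true) (.rot (.cut 5 1 (.cut 11 1 .P (.R 15 0 true)) (.R 15 0 true)))))) (.R 15 0 true)))))) (.rot (.cut 26 1 (.rot (.rot (.cut 1 512 (.rot (.rot (.cut 9 1 (.rot (.rot (.cut 1 20 (.R 15 0 true) (.rot (.cut 18 1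 .P (.R 15 0 true)))))) .N))) (.cut 1 1024 (.rot (.rot (.cut 20 1 .P (.rot (.cut 2 1 (.R 15 0 true) .P))))) .P)))) (.rot (.cut 20 1 .P (.rot (.cut 1 9 (.R 15 0 true) (.cut 1 18 (.R 15 0 true) .P)))))))))) (.rot (.rot (.cut 1 8 .P .P)))))) (.rot (.cut 1 64 (.cut 2 1 .P (.rot (.rot (.cut 2 1 (.rot (.rot (.cut 1 1 (.R 15 0 true) (.cut 1 2 (.R 15 0 true) .P)))) (.rot (.cut 1 2 (.cut 2 1 .P (.R 15 0 true)) (.R 15 0 true))))))) (.rot (.cut 256 1 (.rot (.rot (.cut 1 128 .N (.rot (.cut 512 1 (.rot (.rot (.cut 1 256 .N (.cut 1 512 (.R 15 0 true) (.rot (.cut 1024 1 .P (.cut 1 2 .P (.R 15 0 true)))))))) .N))))) (.cut 1 3 .N (.rot (.cut 1 1 (.rot (.rot (.cut 1 5 .N (.rot (.cut 2 1 (.rot (.rot (.cut 1 11 (.R 15 0 true) .P))) (.R 15 0 true)))))) .N))))))))) .P))))) .P))))) .P))) (.cut 1 33 (.rot (.cut 1 128 .P (.rot (.cut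 52 1 .P (.cut 1 3 .P .P))))) (.rot (.rot (.cut 128 1 (.rot (.cut 1 512 (.rot (.cut 1 2048 .P (.rot (.cut 1024 1 (.rot (.rot (.cut 1 8192 (.rot (.rot (.cut 5 1 .P (.rot (.rot (.cut 2 1 (.rot (.rot (.cut 2 1 (.cut 5 1 .P (.rot (.cut 3 2 (.rot (.rot (.cut 1 2 .P (.rot (.cut 5 1 (.rot (.rot (.cut 1 4 .P (.R 18 0 true)))) .P))))) .P))) (.cut 1 3 (.rot (.rot (.cut 2 3 .P (.rot (.rot (.cut 3 1 (.R 18 0 true) (.rot (.cut 1 5 .P (.R 18 0 true))))))))) .P)))) .P)))))) .P))) .P)))) (.rot (.rot (.cut 2048 1 (.rot (.cut 1 4096 (.rot (.cut 1 16384 .P (.rot (.cut 8192 1 (.rot (.rot (.cut 1 65536 (.cut 2 1 (.rot (.rot (.cut 4 1 (.rot (.rot (.cut 1 10 .N (.rot (.cut 9 1 (.rot (.rot (.cut 1 28 (.cut 2 1 (.R 18 0 true) .P) .P))) (.R 18 0 true)))))) (.rot (.cut 4 1 (.rot (.rot (.cut 1 2 .N (.rot (.cut 9 1 (.rot (.rot (.cut 1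 4 (.R 18 0 true) .P))) (.R 18 0 true)))))) .N))))) (.cut 1 2 (.cut 2 1 (.rot (.rot (.cut 10 1 (.rot (.cut 4 3 (.rot (.rot (.cut 28 1 .P (.rot (.rot (.cut 1 3 (.R 18 0 true) (.rot (.cut 1 2 .P (.R 18 0 true))))))))) .P)) (.rot (.rot (.cut 3 4 (.rot (.rot (.cut 4 1 (.R 18 0 true) .P))) (.R 18 0 true))))))) .P) .P)) .P))) (.cut 1 2 (.rot (.rot (.cut 1 4 (.rot (.rot (.cut 4 3 (.R 18 0 true) (.rot (.cut 2 1 (.cut 4 1 .P (.R 18 0 true)) (.R 18 0 true)))))) (.rot (.cut 3 1 (.rot (.rot (.cut 1 9 (.R 18 0 true) .P))) (.R 18 0 true)))))) (.rot (.rot (.cut 3 4 .P (.rot (.cut 1 5 (.cut 2 1 (.cut 4 1 (.R 18 0 true) .P) .P) .P)))))))))) (.rot (.rot (.cut 16384 1 (.rot (.cut 1 32768 (.rot (.cut 1 131072 (.rot (.rot (.cut 3 1 .P (.rot (.cut 3 1 (.rot (.rot (.cut 1 2 .P (.rot (.cut 6 1 (.rot (.rot (.cut 1 4 (.cut 2 1 (.rot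 (.cut 2 3 (.rot (.rot (.cut 4 1 .P (.R 19 0 true)))) .P)) (.rot (.cut 3 2 .N (.rot (.cut 3 2 (.rot (.rot (.cut 1 4 (.R 19 0 true) (.cut 1 8 (.R 19 0 true) .P)))) (.R 19 0 true)))))) (.rot (.cut 12 1 .N (.cut 1 2 .N (.rot (.cut 2 3 (.rot (.rot (.cut 1 4 .N (.rot (.cut 4 1 (.rot (.rot (.cut 1 8 (.R 19 0 true) (.rot (.cut 8 1 .P (.R 19 0 true)))))) .N))))) .N)))))))) .P))))) .P))))) (.rot (.cut 65536 1 .P (.rot (.cut 2 1 (.rot (.rot (.cut 1 2 (.rot (.rot (.cut 1 5 (.rot (.rot (.cut 2 1 (.rot (.cut 1 1 (.R 18 0 true) (.rot (.cut 1 4 .P (.R 18 0 true))))) .P))) (.rot (.cut 2 1 .P (.cut 1 2 .P (.rot (.cut 4 1 (.rot (.rot (.cut 1 4 .P (.R 18 0 true)))) .P)))))))) (.cut 1 4 (.rot (.rot (.cut 1 2 (.rot (.rot (.cut 1 1 (.rot (.cut 1 1 (.rot (.rot (.cut 2 1 (.R 18 0 true) (.cut 1 2 (.R 18 0 true) .P)))) (.R 18 0 true)))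 .P))) (.R 18 0 true)))) (.rot (.rot (.cut 1 1 .P (.rot (.cut 1 9 (.rot (.cut 2 3 (.R 18 0 true) (.rot (.cut 1 2 (.cut 2 1 .P (.R 18 0 true)) (.R 18 0 true))))) .P))))))))) .P)))))) (.rot (.cut 1 1 (.rot (.cut 262144 1 (.rot (.rot (.cut 7 1 (.rot (.rot (.cut 1 2097152 .P .P))) .P))) (.rot (.rot (.cut 2097152 1 (.rot (.rot (.cut 1 131072 (.rot (.rot (.cut 1 23 .P (.rot (.cut 2 1 (.rot (.rot (.cut 1 42 .P (.rot (.cut 4 1 (.rot (.rot (.cut 1 64 .P (.rot (.cut 8 1 (.rot (.rot (.cut 1 128 .P (.R 19 0 true)))) .P))))) .P))))) .P))))) .P))) (.rot (.rot (.cut 23 1 (.rot (.rot (.cut 1 3 .P (.rot (.cut 42 1 (.rot (.cut 1 8 (.rot (.rot (.cut 64 1 (.cut 128 1 (.R 19 0 true) .P) .P))) (.rot (.cut 1 9 (.cut 2 1 .P (.R 19 0 true)) (.R 19 0 true))))) .P))))) .P)))))))) (.rot (.rot (.cut 1 262144 (.rot (.rot (.cut 131072 1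 (.rot (.rot (.cut 1 2097152 .P .P))) (.cut 1 3 .P (.rot (.cut 3 1 (.rot (.rot (.cut 1 6 .P (.rot (.cut 9 1 (.rot (.rot (.cut 1 12 (.rot (.rot (.cut 1 2 .N (.rot (.cut 2 1 (.cut 4 1 (.rot (.rot (.cut 1 4 (.R 19 0 true) (.rot (.cut 8 1 .P (.R 19 0 true)))))) .N) .N))))) .N))) (.cut 1 2 (.rot (.cut 1 3 (.R 19 0 true) (.rot (.cut 2 1 (.cut 4 1 .P (.R 19 0 true)) (.R 19 0 true))))) .P)))))) .P)))))) (.rot (.cut 1 7 .P (.rot (.cut 2097152 1 .P .P))))))))))) (.rot (.rot (.cut 32768 1 (.rot (.rot (.cut 1 16384 (.rot (.cut 3 1 .P (.rot (.rot (.cut 11 1 (.rot (.rot (.cut 1 3 (.rot (.rot (.cut 1 5 (.rot (.rot (.cut 2 1 (.R 19 0 true) (.rot (.cut 2 1 .P (.R 19 0 true)))))) .N))) (.rot (.rot (.cut 1 2 .P (.rot (.cut 1 8 (.rot (.cut 2 1 (.rot (.rot (.cut 2 1 (.R 19 0 true) (.rot (.cut 4 1 (.rot (.rot (.cut 1 2 (.R 19 0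 true) .P))) (.R 19 0 true)))))) (.R 19 0 true))) .P)))))))) (.rot (.cut 1 2 .P (.rot (.cut 5 1 (.rot (.rot (.cut 1 4 (.rot (.rot (.cut 1 3 .N (.rot (.cut 2 1 (.rot (.rot (.cut 1 5 (.R 19 0 true) (.rot (.cut 4 1 .P (.R 19 0 true)))))) .N))))) .N))) (.cut 1 2 (.rot (.rot (.cut 3 1 (.rot (.rot (.cut 1 6 (.R 19 0 true) (.rot (.cut 5 1 .P (.R 19 0 true)))))) (.R 19 0 true)))) .P)))))))))) (.rot (.cut 131072 1 .P (.cut 1 2 .P (.rot (.cut 1 3 (.rot (.rot (.cut 1 4 .P (.rot (.cut 2 1 (.rot (.rot (.cut 1 8 .P (.rot (.cut 4 1 (.R 19 0 true) (.rot (.cut 3 1 (.rot (.rot (.cut 1 2 (.R 19 0 true) (.cut 1 4 (.R 19 0 true) .P)))) (.R 19 0 true)))))))) .P))))) .P)))))))) (.cut 1 3 (.cut 2 1 (.rot (.cut 1 22 (.rot (.cut 1 11 (.rot (.cut 1 4 (.rot (.rot (.cut 2 1 (.rot (.rot (.cut 1 4 .N (.rot (.cut 4 1 (.cut 8 1 (.rot (.rot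 (.cut 1 8 (.R 19 0 true) .P))) (.R 19 0 true)) .N))))) .N))) (.rot (.cut 2 1 (.rot (.rot (.cut 1 8 (.rot (.rot (.cut 2 1 (.rot (.rot (.cut 1 3 (.R 19 0 true) (.rot (.cut 4 1 .P (.R 19 0 true)))))) .N))) (.cut 1 16 (.rot (.rot (.cut 3 1 .P (.R 19 0 true)))) .P)))) (.cut 1 2 (.rot (.rot (.cut 1 2 (.rot (.rot (.cut 1 1 (.cut 2 1 (.rot (.rot (.cut 1 2 (.R 19 0 true) .P))) (.R 19 0 true)) .N))) (.cut 1 4 (.rot (.rot (.cut 2 1 .P (.R 19 0 true)))) .P)))) (.rot (.cut 4 1 (.rot (.cut 1 2 (.rot (.rot (.cut 8 1 .P (.R 19 0 true)))) .P)) (.rot (.cut 1 1 .N (.rot (.cut 2 1 (.rot (.rot (.cut 1 2 (.R 19 0 true) .P))) (.R 19 0 true)))))))))))) (.rot (.cut 4 1 .N (.rot (.cut 4 1 (.rot (.rot (.cut 1 2 .N (.rot (.cut 8 1 (.rot (.rot (.cut 1 4 (.R 19 0 true) (.rot (.cut 16 1 .P (.R 19 0 true)))))) .N))))) .N)))))) (.rot (.cut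 3 1 (.cut 8 1 .P (.rot (.cut 5 1 (.rot (.cut 1 5 .N (.rot (.cut 1 2 (.rot (.rot (.cut 1 11 (.R 19 0 true) (.rot (.cut 2 1 .P (.R 19 0 true)))))) .N)))) (.rot (.cut 1 3 (.rot (.rot (.cut 1 2 (.R 19 0 true) .P))) (.rot (.cut 5 1 (.cut 11 1 .P (.R 19 0 true)) (.R 19 0 true)))))))) (.rot (.cut 11 1 .N (.rot (.cut 1 5 (.rot (.rot (.cut 1 2 .N (.rot (.cut 2 1 (.rot (.rot (.cut 1 4 (.R 19 0 true) (.cut 1 8 (.R 19 0 true) .P)))) (.R 19 0 true)))))) .N)))))))) .P) .P))))))))) (.rot (.rot (.cut 4096 1 (.rot (.rot (.cut 1 4096 .P (.rot (.cut 16384 1 .P .P))))) .P)))))))) (.rot (.rot (.cut 512 1 (.rot (.rot (.cut 1 256 .P (.rot (.cut 4096 1 (.rot (.rot (.cut 1 1024 (.rot (.rot (.cut 1 6 (.rot (.rot (.cut 7 1 (.rot (.rot (.cut 1 12 (.rot (.rot (.cut 2 3 .N (.rot (.cut 3 1 (.rot (.rot (.cut 1 6 (.cut 2 1 (.cut 4 1 (.R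 17 0 true) .P) .P) .P))) (.R 17 0 true)))))) (.rot (.cut 21 1 (.rot (.rot (.cut 1 30 (.R 17 0 true) .P))) (.R 17 0 true)))))) (.cut 1 3 (.rot (.rot (.cut 3 2 (.rot (.rot (.cut 1 3 (.cut 2 1 (.R 17 0 true) (.rot (.rot (.cut 2 1 (.rot (.rot (.cut 1 1 .P (.cut 1 2 .P (.R 17 0 true))))) .P)))) (.rot (.cut 6 1 .P (.cut 1 2 .P (.rot (.cut 1 1 (.rot (.rot (.cut 1 4 .P (.rot (.cut 2 1 (.R 17 0 true) .P))))) .P)))))))) (.R 17 0 true)))) .P)))) (.rot (.cut 2 1 (.rot (.cut 5 1 (.rot (.rot (.cut 4 1 .P (.rot (.cut 10 1 (.rot (.rot (.cut 1 2 (.rot (.rot (.cut 1 10 (.cut 2 1 (.R 17 0 true) (.rot (.cut 1 10 .P (.R 17 0 true)))) (.rot (.cut 2 1 .P (.rot (.cut 10 1 (.rot (.rot (.cut 1 2 .P (.R 17 0 true)))) .P))))))) .N))) (.rot (.rot (.cut 10 1 .P (.rot (.cut 1 2 (.rot (.rot (.cut 1 2 .P (.R 17 0 true)))) .P)))))))))) .P))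 (.rot (.cut 12 1 (.rot (.rot (.cut 1 3 .N (.rot (.cut 30 1 (.rot (.rot (.cut 1 5 (.cut 2 1 (.R 17 0 true) .P) .P))) (.R 17 0 true)))))) (.cut 1 3 (.R 17 0 true) (.rot (.cut 1 5 .P (.cut 1 10 (.cut 2 1 .P (.R 17 0 true)) (.R 17 0 true)))))))))))) (.rot (.cut 4096 1 .P (.rot (.rot (.cut 3 1 (.rot (.rot (.cut 1 7 (.cut 3 1 .P (.rot (.rot (.cut 3 1 (.rot (.rot (.cut 2 3 (.R 17 0 true) .P))) (.R 17 0 true))))) (.cut 1 21 (.rot (.rot (.cut 3 2 (.rot (.rot (.cut 1 5 (.R 17 0 true) .P))) (.R 17 0 true)))) .P)))) .P)))))))) .P))))) .P))))))))) (.rot (.rot (.cut 1 5 (.cut 33 1 (.rot (.cut 1 128 (.rot (.cut 1 512 .P (.rot (.cut 256 1 (.rot (.rot (.cut 1 4096 .P (.rot (.cut 1024 1 (.rot (.rot (.cut 1 4096 (.rot (.cut 1 3 .P (.rot (.cut 7 1 (.cut 21 1 .P (.rot (.cut 2 3 (.R 17 0 true) .P))) (.cut 1 3 (.rot (.rot (.cut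 3 2 .P (.rot (.cut 2 1 (.R 17 0 true) .P))))) .P))))) .P))) (.rot (.cut 6 1 (.rot (.rot (.cut 1 2 (.rot (.rot (.cut 1 11 (.rot (.rot (.cut 5 1 (.rot (.cut 1 1 (.rot (.rot (.cut 10 1 .N (.rot (.cut 2 1 (.rot (.rot (.cut 1 2 (.R 17 0 true) .P))) (.R 17 0 true)))))) .N)) (.rot (.cut 2 1 .P (.rot (.cut 1 1 (.rot (.rot (.cut 1 2 (.cut 2 1 (.rot (.rot (.cut 1 1 .N (.rot (.cut 4 1 (.rot (.rot (.cut 1 2 (.R 17 0 true) .P))) (.R 17 0 true)))))) .N) .N))) (.cut 1 2 (.rot (.rot (.cut 1 1 (.cut 2 1 .P (.R 17 0 true)) (.R 17 0 true)))) .P)))))))) (.rot (.cut 3 1 (.rot (.rot (.cut 1 29 (.R 17 0 true) (.rot (.cut 5 1 .P (.cut 1 2 .P (.R 17 0 true))))))) .N))))) (.rot (.rot (.cut 1 5 .P (.rot (.cut 1 4 (.rot (.rot (.cut 1 10 (.rot (.cut 1 10 (.rot (.rot (.cut 2 1 .P (.rot (.cut 2 1 (.R 17 0 true) .P))))) .P)) (.rot (.cut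 2 1 .N (.rot (.cut 10 1 (.rot (.rot (.cut 1 2 (.rot (.rot (.cut 1 10 .P (.rot (.cut 2 1 (.R 17 0 true) .P))))) .P))) (.cut 1 2 (.rot (.rot (.cut 10 1 (.R 17 0 true) .P))) (.R 17 0 true))))))))) .P)))))))) (.rot (.cut 1 7 (.rot (.cut 2 3 (.rot (.rot (.cut 3 1 .P (.cut 1 2 .P (.rot (.cut 4 1 (.R 17 0 true) (.rot (.cut 1 1 (.rot (.rot (.cut 1 2 (.R 17 0 true) (.cut 1 4 (.R 17 0 true) .P)))) (.R 17 0 true))))))))) .P)) (.rot (.cut 11 1 (.cut 29 1 (.rot (.rot (.cut 1 21 (.R 17 0 true) .P))) (.R 17 0 true)) (.rot (.cut 3 2 (.rot (.rot (.cut 1 2 (.rot (.rot (.cut 1 3 (.cut 2 1 (.rot (.cut 1 5 (.rot (.rot (.cut 4 1 .P (.R 17 0 true)))) .P)) (.rot (.cut 1 3 .N (.rot (.cut 5 1 (.rot (.rot (.cut 1 6 (.R 17 0 true) .P))) (.R 17 0 true)))))) (.rot (.cut 2 1 .N (.rot (.cut 3 1 (.rot (.rot (.cut 1 2 .N (.rot (.cut 6 1 (.rot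 (.rot (.cut 1 4 (.R 17 0 true) .P))) (.R 17 0 true)))))) .N))))))) .P))) (.cut 1 4 (.rot (.rot (.cut 3 1 .N (.rot (.cut 2 1 (.rot (.rot (.cut 1 2 .N (.rot (.cut 4 1 (.rot (.rot (.cut 1 4 (.R 17 0 true) .P))) (.R 17 0 true)))))) .N))))) .N)))))))))))))) .P)))) (.rot (.rot (.cut 512 1 (.rot (.cut 1 2048 (.rot (.cut 1 4096 .P (.rot (.cut 4096 1 (.rot (.rot (.cut 1 32768 .P .P))) .P)))) (.rot (.rot (.cut 4096 1 (.rot (.cut 1 16384 (.rot (.cut 1 32768 (.rot (.rot (.cut 3 1 (.rot (.cut 1 1 .P (.rot (.cut 1 3 (.rot (.rot (.cut 1 2 (.rot (.rot (.cut 4 3 .N (.rot (.cut 2 1 (.rot (.rot (.cut 1 6 (.R 16 0 true) .P))) (.R 16 0 true)))))) .N))) (.rot (.cut 12 1 (.rot (.cut 1 3 (.rot (.cut 1 53 (.rot (.cut 1 4 (.R 16 0 true) (.rot (.cut 2 1 (.cut 4 1 .P (.R 16 0 true)) (.R 16 0 true))))) .P)) (.rot (.cut 1 8 .N (.rot (.cut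 53 1 (.rot (.rot (.cut 1 17 (.R 16 0 true) .P))) (.R 16 0 true))))))) (.rot (.cut 3 4 (.cut 6 1 .P (.rot (.cut 1 3 (.R 16 0 true) .P))) (.rot (.cut 3 1 .N (.cut 1 2 .N (.rot (.cut 3 1 (.rot (.rot (.cut 1 4 (.R 16 0 true) .P))) (.R 16 0 true)))))))))))))) (.rot (.cut 2 1 (.cut 5 1 (.rot (.rot (.cut 1 3 .P (.rot (.cut 11 1 (.rot (.rot (.cut 1 5 .P (.rot (.cut 22 1 (.R 4 1 true) .P))))) .P))))) .P) (.rot (.cut 1 1 (.rot (.rot (.cut 1 2 .P (.rot (.cut 2 1 (.rot (.rot (.cut 1 4 (.rot (.rot (.cut 1 1 .N (.rot (.cut 2 1 (.rot (.rot (.cut 1 2 (.R 16 0 true) (.rot (.cut 4 1 .P (.R 16 0 true)))))) .N))))) .N))) (.cut 1 2 (.rot (.rot (.cut 1 1 (.cut 2 1 .P (.R 16 0 true)) (.R 16 0 true)))) .P)))))) .P))))))) (.rot (.cut 32768 1 (.rot (.rot (.cut 1 131072 (.rot (.rot (.cut 3 1 .P (.rot (.cut 2 1 (.rot (.rot (.cut 1 2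 .P (.rot (.cut 4 1 (.rot (.rot (.cut 1 4 .P (.rot (.cut 8 1 (.R 16 0 true) (.cut 1 2 (.cut 2 1 (.R 16 0 true) .P) .P)))))) .P))))) .P))))) .P))) (.rot (.rot (.cut 1 3 (.rot (.cut 1 13 (.rot (.rot (.cut 2 1 (.rot (.rot (.cut 1 5 (.rot (.cut 1 3 (.rot (.rot (.cut 2 1 .P (.rot (.cut 2 1 (.R 16 0 true) (.cut 1 2 (.R 16 0 true) .P)))))) .P)) (.rot (.cut 4 1 (.R 16 0 true) (.rot (.cut 3 1 .P (.cut 1 2 (.rot (.rot (.cut 3 1 (.R 16 0 true) (.rot (.cut 2 1 .P (.R 16 0 true)))))) (.R 16 0 true))))))))) .P))) (.rot (.rot (.cut 5 1 (.rot (.rot (.cut 3 1 (.rot (.rot (.cut 1 50 .N (.rot (.cut 8 1 (.rot (.rot (.cut 1 128 (.R 16 0 true) (.rot (.cut 17 1 .P (.R 16 0 true)))))) .N))))) .N))) (.rot (.cut 1 27 (.rot (.rot (.cut 1 2 (.rot (.rot (.cut 1 1 (.rot (.rot (.cut 1 2 (.R 16 0 true) (.rot (.cut 2 1 (.cut 4 1 .P (.R 16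 0 true)) (.R 16 0 true)))))) (.R 16 0 true)))) .P))) (.rot (.cut 50 1 (.cut 128 1 .P (.rot (.rot (.cut 4 1 (.rot (.rot (.cut 1 2 (.R 16 0 true) (.cut 1 4 (.R 16 0 true) .P)))) (.R 16 0 true))))) (.rot (.cut 1 1 .N (.rot (.cut 2 1 (.rot (.rot (.cut 1 2 .N (.rot (.cut 4 1 (.rot (.rot (.cut 1 4 (.R 16 0 true) .P))) (.R 16 0 true)))))) .N))))))))))))) .P))))))) (.rot (.rot (.cut 32768 1 (.rot (.rot (.cut 1 1 (.rot (.rot (.cut 1 131072 (.rot (.rot (.cut 262144 1 .P (.rot (.cut 3 1 (.rot (.rot (.cut 1 3 .P (.rot (.cut 6 1 (.rot (.rot (.cut 1 10 .P (.rot (.cut 12 1 (.R 16 0 true) (.cut 1 2 (.cut 2 1 (.R 16 0 true) .P) .P)))))) .P))))) .P))))) (.rot (.cut 5 1 (.rot (.rot (.cut 1 524288 (.cut 2 1 .P (.R 4 1 true)) (.R 4 1 true)))) .P))))) (.rot (.rot (.cut 1 262144 (.rot (.cut 1 2097152 (.rot (.cut 1 23 .P (.rot (.cut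 3 1 (.rot (.rot (.cut 1 42 .P (.rot (.cut 10 1 (.rot (.cut 4 1 (.R 16 0 true) (.rot (.cut 1 64 .P (.cut 1 128 (.cut 2 1 .P (.R 16 0 true)) (.R 16 0 true)))))) .P))))) .P)))) (.rot (.cut 131072 1 .P (.rot (.cut 23 1 (.rot (.rot (.cut 1 2 .P (.rot (.cut 42 1 (.rot (.rot (.cut 1 4 .P (.rot (.cut 64 1 (.rot (.rot (.cut 1 8 .P (.rot (.cut 128 1 (.R 16 0 true) (.cut 1 2 (.R 16 0 true) .P)))))) .P))))) .P))))) .P)))))) (.rot (.cut 1 7 .P (.rot (.cut 2097152 1 .P .P)))))))))) (.rot (.rot (.cut 131072 1 (.cut 524288 1 .N (.cut 1 2 (.R 4 1 true) (.rot (.cut 1 2 .P (.R 4 1 true))))) (.rot (.cut 1 2 (.rot (.rot (.cut 1 3 .P (.cut 1 6 .P (.rot (.cut 2 1 (.rot (.rot (.cut 1 12 (.cut 2 1 .P (.rot (.cut 1 5 (.rot (.rot (.cut 1 2 .P (.R 16 0 true)))) .P))) (.rot (.cut 4 1 .N (.cut 1 2 .N (.rot (.cut 5 1 (.rot (.rot (.cut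 1 4 (.R 16 0 true) .P))) (.R 16 0 true))))))))) .P)))))) (.rot (.cut 2 1 (.rot (.rot (.cut 1 5 .P (.cut 1 11 .P (.cut 1 22 .P (.R 4 1 true)))))) .P)))))))))))) (.rot (.rot (.cut 16384 1 (.R 4 1 true) (.cut 1 3 (.cut 3 1 (.rot (.cut 1 27 (.rot (.cut 1 13 .P (.rot (.cut 5 1 (.R 4 1 true) .P)))) (.rot (.rot (.cut 13 1 (.R 4 1 true) .P))))) .P) .P))))))))) (.rot (.rot (.cut 2048 1 (.rot (.rot (.cut 1 1024 (.cut 3 1 .P (.cut 1 2 (.rot (.cut 3 4 (.rot (.rot (.cut 2 1 .P (.R 4 1 true)))) .P)) (.R 4 1 true))) (.R 4 1 true)))) .P)))))))) (.rot (.rot (.cut 128 1 (.rot (.rot (.cut 1 59 (.cut 4 1 .P .P) (.rot (.cut 1024 1 (.rot (.rot (.cut 1 256 (.rot (.rot (.cut 1 5 (.cut 2 1 .N (.rot (.cut 1 11 (.rot (.rot (.cut 1 2 (.R 4 2 true) .P))) (.R 4 2 true)))) (.rot (.rot (.cut 11 1 (.rot (.rot (.cut 2 1 .P (.cut 1 2 .P (.cut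 1 4 .P (.R 4 2 true)))))) .P)))))) .N))) (.rot (.rot (.cut 5 1 .P (.rot (.cut 1 3 (.rot (.rot (.cut 1 2 (.rot (.cut 3 4 (.rot (.rot (.cut 2 1 .P (.rot (.rot (.cut 1 3 (.F 4 true) (.R 4 2 true))))))) .P)) (.rot (.cut 2 1 .N (.rot (.cut 4 3 (.rot (.rot (.cut 1 2 (.R 4 1 true) .P))) (.rot (.cut 4 3 (.F 4 true) (.R 4 1 true)))))))))) .P)))))))))) .P)))) (.cut 1 512 (.rot (.rot (.cut 59 1 (.rot (.rot (.cut 1 4096 .P (.rot (.rot (.cut 17 1 (.rot (.rot (.cut 256 1 (.rot (.rot (.cut 1 32768 (.cut 2 1 (.rot (.rot (.cut 60 1 (.rot (.rot (.cut 1 256 .P (.rot (.cut 128 1 (.cut 256 1 (.R 4 2 true) .P) .P))))) .P))) (.cut 1 3 (.rot (.rot (.cut 256 1 (.R 4 2 true) (.rot (.cut 2 1 .P (.R 4 2 true)))))) .N)) .N))) (.rot (.rot (.cut 1 60 .P (.rot (.cut 1 2 (.cut 2 1 (.rot (.rot (.cut 1 128 .P (.rot (.cut 4 1 (.rot (.rot (.cut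 1 256 .P (.R 4 2 true)))) .P))))) .P) .P)))))))) (.rot (.rot (.cut 32768 1 (.rot (.rot (.cut 1 8192 (.rot (.rot (.cut 1 3 (.rot (.cut 1 10 (.rot (.rot (.cut 2 1 (.R 4 2 true) (.cut 1 2 (.R 4 2 true) .P)))) (.R 4 2 true))) (.rot (.cut 4 3 .P (.rot (.cut 10 1 (.R 4 2 true) .P))))))) .N))) (.cut 1 2 (.rot (.rot (.cut 3 1 .P (.rot (.cut 3 1 (.rot (.rot (.cut 1 2 (.rot (.rot (.cut 1 2 (.R 4 2 true) (.rot (.cut 2 1 .P (.R 4 2 true)))))) .N))) (.cut 1 2 (.rot (.rot (.cut 2 1 .P (.R 4 2 true)))) .P)))))) .P)))))))))) (.rot (.cut 12 1 (.rot (.rot (.cut 1 4 .P (.rot (.cut 30 1 (.rot (.rot (.cut 1 8 .P (.rot (.cut 64 1 (.rot (.cut 1 13 (.rot (.cut 1 512 (.rot (.rot (.cut 2 1 .N (.rot (.cut 2 1 (.rot (.rot (.cut 1 2 .N (.rot (.cut 4 1 (.rot (.rot (.cut 1 4 (.R 15 0 true) .P))) (.R 15 0 true)))))) .N))))) (.rot (.cut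 128 1 (.cut 256 1 (.rot (.rot (.cut 1 1024 (.R 15 0 true) (.rot (.cut 512 1 .P (.R 15 0 true)))))) .N) .N)))) (.rot (.cut 1 15 .P (.cut 1 31 .P (.rot (.rot (.cut 1 6 (.rot (.rot (.cut 512 1 (.cut 1024 1 .P (.R 15 0 true)) (.cut 1 2 (.R 15 0 true) (.cut 1 4 (.R 15 0 true) .P))))) .P)))))))) (.rot (.cut 1 7 (.rot (.rot (.cut 1 2 (.rot (.cut 1 2 (.rot (.rot (.cut 2 1 (.rot (.rot (.cut 1 5 (.rot (.rot (.cut 1 1 (.R 15 0 true) (.rot (.cut 2 1 .P (.R 15 0 true)))))) .N))) (.rot (.rot (.cut 1 1 .P (.rot (.cut 1 2 (.R 15 0 true) .P)))))))) (.rot (.cut 3 4 (.cut 6 1 .P (.rot (.cut 1 2 (.R 15 0 true) .P))) (.rot (.cut 5 1 .N (.cut 1 2 (.R 15 0 true) (.rot (.cut 2 1 .P (.R 15 0 true)))))))))) .P))) (.rot (.cut 13 1 .P (.cut 1 2 (.rot (.cut 1 3 (.rot (.rot (.cut 2 1 (.cut 4 1 .P (.R 15 0 true)) (.R 15 0 true)))) .P))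 (.rot (.cut 4 3 .N (.rot (.cut 3 1 (.rot (.rot (.cut 1 6 (.R 15 0 true) .P))) (.R 15 0 true))))))))))))))) .P))))) .P))))) (.rot (.rot (.cut 4096 1 (.rot (.rot (.cut 1 5 .P (.rot (.rot (.cut 1 4096 (.rot (.rot (.cut 8192 1 (.rot (.rot (.cut 1 65536 (.R 4 2 true) .N))) (.rot (.rot (.cut 1 5 .P (.rot (.cut 3 4 (.R 4 2 true) .P)))))))) (.rot (.rot (.cut 65536 1 (.rot (.rot (.cut 1 10 (.R 4 2 true) .N))) (.R 4 2 true)))))))))) .P)))))))))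

theorem c2 : Covered packed FP FN O (-1, 0, 0) (0, -1, 0) (0, 0, 1) :=
  Tr.check_sound t2 (by decide +kernel)

end Pool.Agent.Rohlin.Octic.O15
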