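import Pool.Agent.Rohlin.Octic.O15.Ovals

/-!
# The octic O15: subdivision trees, part 3
-/

set_option autoImplicit false

namespace Pool.Agent.Rohlin.Octic.O15

open Pool.Agent.Rohlin.Cone

/-- tree -/
def t3 : Tr :=
  (.rot (.cut 1 1 (.rot (.cut 5 1 (.cut 512 1 (.rot (.cut 1 4096 (.R 4 2 true) (.cut 1 8192 (.R 4 2 true) (.rot (.cut 7 1 .P (.rot (.cut 8192 1 (.rot (.cut 1 4096 (.R 4 2 true) (.rot (.cut 1 5 .P (.R 4 2 true))))) (.rot (.rot (.cut 4096 1 .P (.R 4 2 true))))))))))) (.rot (.cut 1 52 .N (.rot (.cut 4096 1 (.rot (.rot (.cut 1 256 .N (.rot (.cut 8192 1 (.rot (.cut 1 7 (.rot (.cut 1 16384 (.R 4 2 true) .P)) (.rot (.rot (.cut 16384 1 (.rot (.rot (.cut 1 512 (.cut 3 2 (.R 4 2 true) (.cut 1 4 (.R 4 2 true) .P)) .P))) (.R 4 2 true)))))) (.R 4 2 true)))))) .N))))) (.cut 1 33 (.rot (.cut 1 128 .N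 (.rot (.cut 52 1 (.rot (.rot (.cut 1 1024 (.rot (.cut 1 5 .N (.rot (.cut 5 1 (.cut 19 1 .N (.rot (.cut 3 2 (.rot (.rot (.cut 1 2 (.rot (.rot (.cut 1 2 (.rot (.rot (.cut 1 1 (.R 2 0 true) (.rot (.cut 2 1 (.rot (.rot (.cut 1 2 .P (.rot (.cut 4 1 (.rot (.rot (.cut 1 4 (.R 2 0 true) .N))) (.R 2 0 true)))))) .P))))) (.cut 1 4 (.rot (.cut 1 4 (.rot (.rot (.cut 2 1 (.R 2 0 true) .N))) (.R 2 0 true))) (.rot (.cut 2 1 .N (.rot (.cut 4 1 (.rot (.rot (.cut 1 2 .N (.R 2 0 true)))) .N)))))))) (.rot (.cut 7 1 (.rot (.rot (.cut 1 5 (.R 2 0 true) (.rot (.cut 15 1 (.cut 30 1 (.rot (.rot (.cut 1 10 (.R 2 0 true) (.rot (.cut 60 1 .N (.R 2 0 true)))))) .P) .P))))) (.rot (.cut 1 1 (.rot (.rot (.cut 1 2 .P (.rot (.cut 2 1 (.rot (.rot (.cut 1 4 (.R 2 0 true) (.rot (.cut 4 1 .N (.R 2 0 true)))))) .P))))) (.R 2 0 true))))))))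 (.rot (.cut 2 1 .N (.cut 1 2 .N (.rot (.rot (.cut 2 1 (.rot (.rot (.cut 2 1 (.cut 4 1 .N (.cut 1 2 .N (.rot (.cut 2 1 (.R 2 0 true) .N)))) (.cut 1 2 (.rot (.rot (.cut 1 2 (.rot (.rot (.cut 1 1 (.R 2 0 true) .N))) (.R 2 0 true)))) (.cut 1 4 (.rot (.rot (.cut 1 1 .N (.R 2 0 true)))) .N))))) .N))))))))) (.rot (.cut 4 1 (.rot (.rot (.cut 1 3 (.rot (.rot (.cut 1 2 .N (.rot (.cut 2 1 (.rot (.cut 3 2 .N (.rot (.rot (.cut 22 1 (.rot (.cut 1 8 .N (.rot (.rot (.cut 128 1 (.rot (.rot (.cut 1 5 (.cut 2 1 .N (.R 2 0 true)) (.cut 1 11 (.R 2 0 true) .N)))) .N))))) .N))))) .N))))) .N))) (.rot (.cut 2 3 .N (.rot (.cut 2 1 (.rot (.rot (.cut 1 7 (.rot (.rot (.cut 1 1 (.rot (.rot (.cut 1 3 .P (.rot (.cut 2 1 (.rot (.rot (.cut 1 5 (.R 2 0 true) .N))) (.R 2 0 true)))))) (.rot (.cut 2 1 (.rot (.rot (.cut 1 2 (.R 2 0 true)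 (.rot (.cut 4 1 .N (.R 2 0 true)))))) .P))))) (.rot (.cut 5 1 (.rot (.rot (.cut 1 15 .P (.rot (.cut 11 1 (.rot (.rot (.cut 1 30 (.R 2 0 true) (.cut 1 60 (.R 2 0 true) .N)))) (.R 2 0 true)))))) (.rot (.cut 3 1 (.rot (.rot (.cut 1 2 (.R 2 0 true) (.rot (.cut 5 1 .N (.R 2 0 true)))))) .P))))))) (.rot (.cut 2 1 .N (.cut 1 2 .N (.rot (.rot (.cut 5 1 (.rot (.rot (.cut 1 1 (.cut 2 1 .N (.R 2 0 true)) (.cut 1 2 (.R 2 0 true) .N)))) .N)))))))))))))))) (.rot (.cut 256 1 (.rot (.rot (.cut 1 2048 .N (.cut 1 2048 (.R 4 2 true) (.rot (.cut 512 1 .P (.cut 2 3 (.rot (.cut 1 2 (.rot (.cut 1 45 (.R 4 2 true) (.rot (.cut 4 1 .P (.R 4 2 true))))) .P)) (.R 4 2 true)))))))) .N))))) (.rot (.cut 7 1 .N (.rot (.cut 1 5 .N (.rot (.cut 10 1 (.rot (.rot (.cut 1 19 (.cut 2 1 (.rot (.rot (.cut 1 2 .N (.rot (.rot (.cut 3 4 (.rot (.rot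 (.cut 5 1 (.cut 10 1 .N (.rot (.cut 3 1 (.R 2 0 true) .N))) (.rot (.cut 6 1 (.R 2 0 true) (.rot (.cut 1 3 .N (.R 2 0 true)))))))) .N)))))) .N) .N))) .N)))))))))) (.rot (.rot (.cut 128 1 (.rot (.cut 1 512 (.rot (.cut 1 2048 .N (.rot (.cut 1024 1 (.rot (.rot (.cut 1 8192 .N (.rot (.cut 2048 1 (.rot (.rot (.cut 1 16384 (.R 4 2 true) (.rot (.cut 2048 1 .P (.R 4 2 true)))))) .N))))) .N)))) (.rot (.rot (.cut 2048 1 (.rot (.cut 1 4096 (.rot (.cut 1 16384 .N (.rot (.cut 8192 1 (.rot (.rot (.cut 1 65536 (.R 4 2 true) (.rot (.cut 16384 1 .P (.R 4 2 true)))))) .N)))) (.rot (.rot (.cut 16384 1 (.rot (.cut 1 32768 (.rot (.cut 1 131072 .N (.rot (.cut 65536 1 (.rot (.rot (.cut 1 262144 (.R 4 2 true) .P))) (.R 4 2 true))))) (.rot (.cut 1 1 (.cut 7 1 (.rot (.rot (.cut 1 131072 (.R 4 2 true) .P))) (.R 4 2 true)) (.rot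 (.cut 131072 1 (.cut 262144 1 .P (.R 4 2 true)) (.R 4 2 true))))))) (.rot (.rot (.cut 32768 1 (.rot (.rot (.cut 1 16384 .N (.rot (.cut 131072 1 (.rot (.rot (.cut 1 32768 (.R 4 2 true) .P))) (.R 4 2 true)))))) .N)))))))) (.rot (.rot (.cut 4096 1 (.rot (.rot (.cut 1 4096 .N (.rot (.cut 16384 1 (.cut 32768 1 (.rot (.rot (.cut 1 4096 (.R 4 2 true) .P))) (.R 4 2 true)) .N))))) .N)))))))) (.rot (.rot (.cut 512 1 (.rot (.rot (.cut 1 256 (.rot (.rot (.cut 1 4 .N (.rot (.cut 3 1 (.rot (.cut 3 1 (.rot (.rot (.cut 7 1 .N (.rot (.cut 5 1 (.rot (.rot (.cut 1 2 (.rot (.rot (.cut 1 5 .P (.rot (.cut 2 1 (.rot (.rot (.cut 1 10 (.cut 2 1 (.R 3 0 true) .N) .N))) (.R 3 0 true)))))) .P))) (.rot (.cut 1 2 (.rot (.rot (.cut 1 2 (.cut 2 1 (.rot (.rot (.cut 1 1 (.rot (.rot (.cut 1 4 (.R 3 0 true) (.rot (.cut 2 1 .N (.cut 1 2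 .N (.R 3 0 true))))))) (.R 3 0 true)))) .N) .N))) (.rot (.cut 5 1 (.cut 10 1 .N (.rot (.cut 1 2 (.rot (.rot (.cut 1 2 .N (.R 3 0 true)))) .N))) (.rot (.cut 1 1 .P (.rot (.cut 2 1 (.rot (.rot (.cut 1 2 (.cut 2 1 (.R 3 0 true) .N) .N))) (.R 3 0 true)))))))))))))) .N)) (.cut 1 3 (.rot (.cut 4 3 (.rot (.rot (.cut 2 1 (.rot (.cut 5 1 (.rot (.rot (.cut 4 1 (.rot (.rot (.cut 1 35 (.cut 2 1 .N (.rot (.rot (.cut 21 1 (.rot (.rot (.cut 1 10 (.R 3 0 true) (.cut 1 20 (.R 3 0 true) .N)))) (.R 3 0 true))))) (.rot (.cut 8 1 .P (.rot (.cut 10 1 (.rot (.rot (.cut 1 2 (.R 3 0 true) (.rot (.cut 20 1 .N (.R 3 0 true)))))) .P))))))) .N))) (.rot (.cut 1 17 (.cut 2 1 .N (.rot (.cut 1 1 (.rot (.cut 1 1 (.R 3 0 true) (.rot (.cut 1 2 (.cut 2 1 .N (.R 3 0 true)) (.R 3 0 true))))) .N))) (.rot (.cut 35 1 .P (.rot (.cut 1 1 (.rot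 (.rot (.cut 1 2 (.R 3 0 true) .N))) (.R 3 0 true))))))))) .N))) (.rot (.cut 1 3 .N (.cut 1 5 (.rot (.cut 4 3 (.rot (.rot (.cut 2 1 .N (.cut 1 2 .N (.rot (.rot (.cut 1 2 (.rot (.rot (.cut 8 1 (.R 3 0 true) (.cut 1 2 (.R 3 0 true) .N)))) (.R 3 0 true)))))))) .N)) (.rot (.cut 17 1 .P (.rot (.cut 3 4 (.rot (.rot (.cut 1 2 (.rot (.rot (.cut 1 3 (.cut 2 1 .N (.rot (.cut 1 3 (.R 3 0 true) .N))) (.rot (.cut 2 1 .P (.rot (.cut 3 1 (.rot (.rot (.cut 1 2 (.R 3 0 true) .N))) (.R 3 0 true)))))))) .N))) (.rot (.rot (.cut 3 1 .P (.rot (.cut 1 8 (.rot (.rot (.cut 1 2 (.R 3 0 true) (.rot (.cut 2 1 .N (.R 3 0 true)))))) .P)))))))))))))) .N)))))) (.rot (.cut 4096 1 (.rot (.rot (.cut 1 1024 (.R 4 2 true) (.rot (.cut 4096 1 (.rot (.rot (.cut 1 1024 (.R 4 2 true) .P))) (.R 4 2 true)))))) .N))))) .N))))))))) (.rot (.rot (.cut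 1 5 (.cut 33 1 (.rot (.cut 1 128 (.rot (.cut 1 512 .N (.rot (.cut 256 1 (.rot (.rot (.cut 1 4096 .N (.rot (.cut 1024 1 (.rot (.rot (.cut 1 4096 (.R 4 2 true) (.rot (.cut 1024 1 .P (.R 4 2 true)))))) (.R 4 2 true)))))) (.rot (.cut 4 1 (.rot (.rot (.cut 1 3 (.rot (.cut 3 1 (.rot (.rot (.cut 3 1 .N (.cut 1 2 .N (.rot (.rot (.cut 2 3 (.rot (.rot (.cut 5 1 (.cut 11 1 (.rot (.rot (.cut 1 24 (.rot (.rot (.cut 1 1 (.R 3 0 true) (.rot (.cut 2 1 .N (.R 3 0 true)))))) .P))) (.cut 1 2 (.rot (.cut 1 2 (.R 3 0 true) (.rot (.cut 1 1 .N (.R 3 0 true))))) .N)) .N))) (.rot (.cut 1 4 .N (.rot (.rot (.cut 1 3 (.rot (.rot (.cut 24 1 (.R 3 0 true) (.cut 1 2 (.R 3 0 true) .N)))) (.rot (.cut 1 8 (.cut 2 1 .N (.R 3 0 true)) (.R 3 0 true))))))))))))))) .N)) (.rot (.rot (.cut 1 3 .N (.rot (.cut 1 7 (.rot (.rot (.cut 1 5 .N (.rot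 (.cut 2 1 (.rot (.rot (.cut 1 11 (.rot (.rot (.cut 2 1 .P (.rot (.cut 2 1 (.rot (.rot (.cut 1 2 (.R 3 0 true) .N))) (.R 3 0 true)))))) .P))) (.rot (.cut 5 1 (.rot (.rot (.cut 1 2 (.rot (.rot (.cut 1 5 (.cut 2 1 .N (.R 3 0 true)) (.R 3 0 true)))) .N))) (.rot (.cut 1 2 (.rot (.cut 1 1 (.rot (.rot (.cut 2 1 .N (.R 3 0 true)))) .N)) (.rot (.cut 5 1 .P (.rot (.cut 1 1 (.rot (.rot (.cut 1 2 (.R 3 0 true) .N))) (.R 3 0 true)))))))))))))) .N)))))))) .N)))))) (.rot (.rot (.cut 512 1 (.rot (.cut 1 2048 (.rot (.cut 1 4096 .N (.rot (.cut 4096 1 (.rot (.rot (.cut 1 32768 (.R 4 2 true) (.rot (.cut 4096 1 (.cut 8192 1 .P (.R 4 2 true)) (.R 4 2 true)))))) .N)))) (.rot (.rot (.cut 4096 1 (.rot (.cut 1 16384 (.rot (.cut 1 32768 .N (.rot (.cut 32768 1 (.rot (.rot (.cut 1 131072 (.R 4 2 true) .P))) (.R 4 2 true))))) (.rot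 (.rot (.cut 32768 1 (.rot (.rot (.cut 1 1 (.rot (.rot (.cut 1 131072 (.rot (.cut 1 262144 .N (.R 4 2 true))) (.rot (.cut 5 1 (.R 4 0 true) (.cut 1 5 (.R 4 0 true) (.rot (.cut 262144 1 (.cut 1048576 1 .P (.rot (.cut 1 65536 (.cut 2 1 (.R 4 2 true) (.rot (.cut 4 3 (.rot (.rot (.cut 1 2 (.R 4 2 true) (.cut 1 4 (.R 4 2 true) .P)))) (.R 4 2 true)))) .P))) (.rot (.cut 1 32768 .N (.rot (.cut 65536 1 (.R 4 0 true) (.cut 1 2 (.rot (.cut 1 4 (.rot (.cut 1 5 .N (.rot (.cut 2 1 (.rot (.rot (.cut 1 10 (.rot (.rot (.cut 2 1 (.rot (.rot (.cut 1 5 (.rot (.rot (.cut 1 1 (.rot (.rot (.cut 1 2 (.rot (.cut 1 2 (.rot (.cut 1 4 (.F 4 true) (.R 4 2 true))) .P)) (.F 4 true)))) .P))) (.rot (.rot (.cut 2 1 .N (.R 4 2 true))))))) (.R 4 0 true)))) (.rot (.cut 4 1 .P (.rot (.cut 5 1 (.R 4 2 true) .P))))))) .N)))) (.R 4 0 true)))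 .N))))))))))))) (.rot (.cut 131072 1 (.rot (.rot (.cut 1 7 (.cut 5 1 (.R 4 2 true) .P) .P))) (.R 4 2 true)))))) (.rot (.rot (.cut 131072 1 (.rot (.rot (.cut 1 65536 .N (.R 4 0 true)))) .N)))))))) (.rot (.rot (.cut 16384 1 (.rot (.rot (.cut 1 16384 .N .N))) .N)))))))) (.rot (.rot (.cut 2048 1 (.rot (.rot (.cut 1 1024 .N (.rot (.cut 16384 1 .N .N))))) .N)))))))) (.rot (.rot (.cut 128 1 (.rot (.rot (.cut 1 59 (.rot (.cut 6 1 .N .N)) (.rot (.cut 1024 1 (.rot (.rot (.cut 1 256 (.rot (.rot (.cut 1 5 (.rot (.cut 1 11 .N (.rot (.cut 7 1 (.cut 16 1 .N (.rot (.cut 2 1 (.rot (.rot (.cut 1 2 (.rot (.rot (.cut 2 3 (.R 0 0 true) (.rot (.cut 2 1 .N (.R 0 0 true)))))) (.R 0 0 true)))) .N))) (.cut 1 3 (.cut 2 1 (.rot (.cut 1 3 (.rot (.rot (.cut 5 1 (.R 0 0 true) .N))) (.rot (.cut 1 2 .N (.R 0 0 true))))) .N) .N)))))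 (.cut 1 14 .N .N)))) (.rot (.cut 4096 1 (.rot (.rot (.cut 1 512 (.rot (.rot (.cut 1 5 .N (.rot (.cut 4 3 (.rot (.cut 3 1 .N (.rot (.cut 1 14 (.rot (.rot (.cut 1 2 (.rot (.rot (.cut 4 3 (.R 0 0 true) .N))) (.R 0 0 true)))) (.cut 1 29 (.rot (.rot (.cut 3 4 .N (.rot (.rot (.cut 4 1 (.rot (.rot (.cut 2 1 (.R 0 0 true) (.cut 1 2 (.R 0 0 true) .N)))) (.R 0 0 true))))))) .N))))) .N))))) .N))) (.rot (.cut 1 7 (.rot (.cut 1 2 (.rot (.cut 1 7 (.rot (.rot (.cut 3 1 (.rot (.cut 1 1 (.R 0 0 true) (.rot (.cut 1 4 .N (.cut 1 9 (.cut 2 1 .N (.R 0 0 true)) (.R 0 0 true)))))) (.rot (.rot (.cut 1 1 (.rot (.rot (.cut 2 1 (.rot (.cut 1 1 .N (.R 0 0 true))) .N))) (.R 0 0 true))))))) (.rot (.cut 3 1 .N (.rot (.cut 4 1 (.rot (.rot (.cut 1 2 .N (.cut 1 5 .N (.rot (.cut 9 1 (.R 0 0 true) (.cut 1 2 (.R 0 0 true) .N))))))) .N))))))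 .N)) (.rot (.cut 5 1 (.cut 14 1 (.rot (.rot (.cut 1 16 (.rot (.cut 1 1 (.rot (.rot (.cut 2 1 .P (.rot (.cut 2 1 (.rot (.rot (.cut 1 2 (.R 0 0 true) (.rot (.cut 4 1 .N (.R 0 0 true)))))) .P))))) .P)) (.rot (.cut 29 1 .N (.rot (.cut 1 1 (.rot (.rot (.cut 1 2 (.rot (.rot (.cut 1 1 (.R 0 0 true) (.rot (.cut 2 1 .N (.R 0 0 true)))))) .P))) (.rot (.rot (.cut 1 1 .N (.rot (.rot (.cut 4 1 (.rot (.rot (.cut 1 2 (.R 0 0 true) (.cut 1 4 (.R 0 0 true) .N)))) (.R 0 0 true)))))))))))))) (.R 0 0 true)) (.rot (.cut 2 1 .N (.R 0 0 true)))))))))))) (.rot (.rot (.cut 5 1 (.rot (.rot (.cut 1 6 (.rot (.rot (.cut 1 4 (.rot (.cut 1 2 .N (.rot (.cut 4 3 (.rot (.cut 2 3 (.rot (.rot (.cut 8 1 (.rot (.rot (.cut 1 29 (.cut 2 1 (.rot (.rot (.cut 2 1 (.R 1 0 true) (.rot (.cut 4 1 (.rot (.rot (.cut 1 2 (.R 1 0 true) (.cut 1 4 (.R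 1 0 true) .N)))) (.R 1 0 true)))))) (.R 1 0 true)) (.rot (.cut 17 1 .N (.R 1 0 true)))))) (.rot (.cut 4 1 .P (.rot (.cut 1 2 (.rot (.rot (.cut 1 2 .P (.rot (.cut 2 1 (.rot (.rot (.cut 1 4 (.R 1 0 true) (.rot (.cut 4 1 .N (.R 1 0 true)))))) .P))))) .P))))))) .N)) (.cut 1 5 (.rot (.cut 1 3 (.cut 2 1 (.R 1 0 true) (.rot (.cut 1 4 (.cut 2 1 .N (.R 1 0 true)) (.R 1 0 true)))) (.rot (.cut 3 2 .N (.cut 1 4 (.rot (.cut 1 2 (.rot (.cut 1 4 (.R 1 0 true) (.rot (.cut 2 1 (.cut 4 1 .N (.R 1 0 true)) (.R 1 0 true))))) .N)) (.rot (.cut 4 1 .P (.rot (.cut 2 1 (.rot (.rot (.cut 1 2 (.R 1 0 true) .N))) (.R 1 0 true)))))))))) .N))))) .N))) (.cut 1 21 (.rot (.rot (.cut 3 4 (.rot (.rot (.cut 1 3 (.rot (.rot (.cut 1 3 (.R 1 0 true) (.rot (.cut 2 1 (.rot (.rot (.cut 1 6 (.rot (.rot (.cut 4 3 .N (.rot (.cut 2 1 (.R 1 0 true)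 .N))))) .N))) (.cut 1 2 (.rot (.rot (.cut 3 4 (.R 1 0 true) .N))) (.R 1 0 true))))))) (.rot (.cut 5 1 (.rot (.rot (.cut 1 6 (.cut 2 1 (.R 1 0 true) (.rot (.cut 1 1 .N (.R 1 0 true)))) .N))) (.R 1 0 true)))))) (.rot (.cut 2 1 (.rot (.rot (.cut 1 8 (.rot (.rot (.cut 3 2 (.rot (.rot (.cut 1 3 .P (.rot (.cut 6 1 (.rot (.rot (.cut 1 6 (.R 1 0 true) (.rot (.cut 13 1 .N (.R 1 0 true)))))) .P))))) .P))) (.cut 1 17 (.rot (.rot (.cut 3 1 (.rot (.rot (.cut 1 7 (.R 1 0 true) (.rot (.cut 6 1 .N (.R 1 0 true)))))) (.R 1 0 true)))) .N)))) (.rot (.cut 3 1 (.cut 6 1 .N (.rot (.cut 1 3 (.rot (.rot (.cut 1 2 (.rot (.rot (.cut 1 1 (.cut 2 1 (.R 1 0 true) .N) .N))) (.R 1 0 true)))) (.cut 1 6 (.rot (.rot (.cut 1 1 .N (.cut 1 2 .N (.R 1 0 true))))) .N)))) (.rot (.cut 2 3 .P (.rot (.cut 3 1 (.rot (.rot (.cut 1 6 .P (.rot (.cut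 6 1 (.rot (.rot (.cut 1 13 (.R 1 0 true) .N))) (.R 1 0 true)))))) .P))))))))))) (.rot (.cut 14 1 .N (.rot (.cut 3 1 (.cut 6 1 .N .N) .N)))))))) .N)))))))) .N)))) (.cut 1 512 (.rot (.rot (.cut 59 1 (.rot (.rot (.cut 1 4096 .N (.rot (.cut 256 1 .N .N))))) .N))) (.rot (.rot (.cut 4096 1 (.rot (.rot (.cut 1 5 (.R 4 2 true) (.cut 1 10 (.R 4 2 true) .N)))) (.R 4 2 true))))))))))

theorem c3 : Covered packed FP FN O (1, 0, 0) (0, -1, 0) (0, 0, 1) :=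
  Tr.check_sound t3 (by decide +kernel)

end Pool.Agent.Rohlin.Octic.O15
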