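import Pool.Agent.Rohlin.Octic.O15.Ok
import Pool.Agent.Rohlin.Octic.O15.T0
import Pool.Agent.Rohlin.Octic.O15.T1
import Pool.Agent.Rohlin.Octic.O15.T2
import Pool.Agent.Rohlin.Octic.O15.T3
import Pool.Agent.Rohlin.Iso.Export

/-!
# The octic O15: the real scheme
-/

set_option autoImplicit false

namespace Pool.Agent.Rohlin.Octic.O15

open Pool.Agent.Rohlin.Cone

/-- the octic has the scheme `S15` -/
theorem real : IsRealScheme 8 S15 :=
  isRealScheme_of_cert mod3 brP brN ringForms oks (by decide) hS15 anti15 pairs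
    c0 c1 c2 c3

/-- the discs of the ovals are star shaped -/
theorem star : ∃ (c : Fin S15.n → Fin 3 → ℝ) (Δ : Fin S15.n → Set RP2),
    StarDiscs (curveOf L mod3).real S15 c Δ :=
  starDiscs_of_cert mod3 brP brN ringForms oks (by decide) hS15 pairs
    c0 c1 c2 c3

end Pool.Agent.Rohlin.Octic.O15
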