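import Pool.Agent.Rohlin.Octic.O15.Ovals

/-!
# The octic O15: the checks of the ovals
-/

set_option autoImplicit false

namespace Pool.Agent.Rohlin.Octic.O15

open Pool.Agent.Rohlin.Cone

theorem ringForms : ringFormsOk L O = true := by decide +kernel

theorem pairs : pairsOk ins15 (O.map Prod.fst) = true := by decide +kernel

theorem ok0 : OvalOk packed FP FN o0 :=
  ovalCheck_sound (sQ := [[.S, (.cut 1 4 .S .S), .S, .S]])
    (sK := []) (by decide +kernel)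

theorem ok1 : OvalOk packed FP FN o1 :=
  ovalCheck_sound (sQ := [[.S, .S, .S, .S]])
    (sK := []) (by decide +kernel)

theorem ok2 : OvalOk packed FP FN o2 :=
  ovalCheck_sound (sQ := [[.S, .S, .S, .S]])
    (sK := []) (by decide +kernel)

theorem ok3 : OvalOk packed FP FN o3 :=
  ovalCheck_sound (sQ := [[.S, .S, .S, .S]])
    (sK := []) (by decide +kernel)

theorem ok4 : OvalOk packed FP FN o4 :=
  ovalCheck_sound (sQ := [[(.cut 1 304 .S .S), (.cut 1 3 .S .S), (.cut 566413 1 (.cut 1048576 1 (.cut 1048576 1 (.cut 1048576 1 (.cut 1048576 1 (.cut 1048576 1 .S (.I 1)) (.I 1)) (.I 1)) (.I 1)) (.I 1)) (.I 1)), (.cut 1 514 (.I 2) (.cut 1 1028 (.I 2) (.cut 1 2056 (.I 2) (.cut 1 4112 (.I 2) (.cut 1 8224 (.I 2) (.cut 1 16448 (.I 2) (.cut 1 32896 (.I 2) (.cut 1 65792 (.I 2) .S))))))))], [.S, (.cut 1 88 (.cut 1 1 (.cut 2 1 .S .S) .S) .S), (.cut 16 1 (.cut 32 1 (.cut 64 1 .S (.I 2)) (.I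 2)) (.I 2)), (.cut 1 7 (.cut 1 1 (.cut 2 1 (.cut 4 1 (.cut 8 1 (.cut 16 1 (.cut 32 1 (.cut 64 1 (.I 2) (.cut 1 1 (.I 2) (.cut 1 2 (.I 2) (.cut 1 4 (.I 2) (.cut 1 8 (.cut 1 1 (.cut 2 1 (.I 2) (.cut 1 1 (.cut 1 1 (.I 2) (.cut 1 1 (.I 2) (.cut 1 2 (.cut 1 1 (.cut 2 1 (.I 2) (.I 0)) (.I 0)) (.I 0)))) (.I 0))) (.I 0)) (.I 0)))))) (.I 0)) (.I 0)) (.I 0)) (.I 0)) (.I 0)) (.I 0)) (.cut 1 14 (.I 0) (.cut 1 28 (.I 0) (.cut 1 56 (.I 0) (.cut 1 112 (.I 0) .S)))))], [(.cut 10 1 .S .S), .S, (.cut 36 1 .S .S), .S, (.cut 257 1 (.cut 514 1 (.cut 1028 1 (.cut 2056 1 (.cut 4112 1 (.cut 8224 1 (.cut 16448 1 (.cut 32896 1 .S (.I 0)) (.I 0)) (.I 0)) (.I 0)) (.I 0)) (.I 0)) (.I 0)) (.I 0)), (.cut 1 628906 (.I 1) (.cut 1 1048576 (.I 1) (.cut 1 1048576 (.I 1) (.cut 1 1048576 (.I 1) .S))))]])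
    (sK := [[.S, (.cut 1 1048576 .S .S), .S, .S, .S, .S, (.cut 1048576 1 .S .S)]]) (by decide +kernel)

theorem ok5 : OvalOk packed FP FN o5 :=
  ovalCheck_sound (sQ := [[.S, .S, .S, .S]])
    (sK := []) (by decide +kernel)

theorem ok6 : OvalOk packed FP FN o6 :=
  ovalCheck_sound (sQ := [[.S, .S, (.cut 1 256 (.cut 2 1 .S .S) .S), (.cut 128 1 .S (.cut 1 2 .S .S))]])
    (sK := []) (by decide +kernel)

theorem ok7 : OvalOk packed FP FN o7 :=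
  ovalCheck_sound (sQ := [[.S, .S, .S, .S]])
    (sK := []) (by decide +kernel)

theorem ok8 : OvalOk packed FP FN o8 :=
  ovalCheck_sound (sQ := [[.S, .S, .S, .S]])
    (sK := []) (by decide +kernel)

theorem ok9 : OvalOk packed FP FN o9 :=
  ovalCheck_sound (sQ := [[.S, .S, .S, .S]])
    (sK := []) (by decide +kernel)

theorem ok10 : OvalOk packed FP FN o10 :=
  ovalCheck_sound (sQ := [[.S, .S, .S, .S]])
    (sK := []) (by decide +kernel)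

theorem ok11 : OvalOk packed FP FN o11 :=
  ovalCheck_sound (sQ := [[.S, .S, (.cut 128 1 .S (.cut 1 2 .S .S)), .S]])
    (sK := []) (by decide +kernel)

theorem ok12 : OvalOk packed FP FN o12 :=
  ovalCheck_sound (sQ := [[.S, .S, .S, .S]])
    (sK := []) (by decide +kernel)

theorem ok13 : OvalOk packed FP FN o13 :=
  ovalCheck_sound (sQ := [[.S, .S, .S, (.cut 1 128 .S .S)]])
    (sK := []) (by decide +kernel)

theorem ok14 : OvalOk packed FP FN o14 :=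
  ovalCheck_sound (sQ := [[.S, .S, .S, .S]])
    (sK := []) (by decide +kernel)

theorem ok15 : OvalOk packed FP FN o15 :=
  ovalCheck_sound (sQ := [[.S, .S, .S, .S]])
    (sK := []) (by decide +kernel)

theorem ok16 : OvalOk packed FP FN o16 :=
  ovalCheck_sound (sQ := [[.S, .S, .S, .S]])
    (sK := []) (by decide +kernel)

theorem ok17 : OvalOk packed FP FN o17 :=
  ovalCheck_sound (sQ := [[(.cut 4 1 .S (.cut 1 2 .S .S)), .S, .S, (.cut 1 8 (.cut 2 1 .S .S) .S)]])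
    (sK := []) (by decide +kernel)

theorem ok18 : OvalOk packed FP FN o18 :=
  ovalCheck_sound (sQ := [[.S, .S, .S, .S]])
    (sK := []) (by decide +kernel)

theorem ok19 : OvalOk packed FP FN o19 :=
  ovalCheck_sound (sQ := [[.S, .S, .S, .S, .S, .S]])
    (sK := []) (by decide +kernel)

theorem oks : ∀ o ∈ O, OvalOk packed FP FN o.1 :=
  List.forall_mem_cons.2 ⟨ok0, List.forall_mem_cons.2 ⟨ok1, List.forall_mem_cons.2 ⟨ok2, List.forall_mem_cons.2 ⟨ok3, List.forall_mem_cons.2 ⟨ok4, List.forall_mem_cons.2 ⟨ok5, List.forall_mem_cons.2 ⟨ok6, List.forall_mem_cons.2 ⟨ok7, List.forall_mem_cons.2 ⟨ok8, List.forall_mem_cons.2 ⟨ok9, List.forall_mem_cons.2 ⟨ok10, List.forall_mem_cons.2 ⟨ok11, List.forall_mem_cons.2 ⟨ok12, List.forall_mem_cons.2 ⟨ok13, List.forall_mem_cons.2 ⟨ok14, List.forall_mem_cons.2 ⟨ok15, List.forall_mem_cons.2 ⟨ok16, List.forall_mem_cons.2 ⟨ok17, List.forall_mem_cons.2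 ⟨ok18, List.forall_mem_cons.2 ⟨ok19, List.forall_mem_nil _⟩⟩⟩⟩⟩⟩⟩⟩⟩⟩⟩⟩⟩⟩⟩⟩⟩⟩⟩⟩

end Pool.Agent.Rohlin.Octic.O15
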